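import Pool.Agent.Lib.MP_acf5a6_lc.Hy.Tri

/-!
The blow-up of a tensor with entries `-1, 0, 1` to a symmetric tensor with entries `0, 1`.
-/

set_option autoImplicit false
set_option linter.unusedSectionVars false

namespace Pool.Agent.Lib.MP_acf5a6_lc.Hy

open Finset

variable {I G : Type} [Fintype I] [Fintype G] [DecidableEq I] [DecidableEq G]

/-- The sign of a bit. -/
def sg (b : Bool) : ℝ := cond b (-1) 1

/-- The sign pattern attached to an entry. -/
noncomputable def pat (T : I → I → I → ℝ) (h : G → G → ℝ) (p q r : I × G × Bool × Bool) : ℝ :=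
  if T p.1 q.1 r.1 = 0 then h p.2.1 q.2.1 * sg p.2.2.2 * sg q.2.2.2 * sg r.2.2.2
  else T p.1 q.1 r.1 * sg p.2.2.1 * sg q.2.2.1 * sg r.2.2.1

/-- The blown-up symmetric tensor. -/
noncomputable def blow (T : I → I → I → ℝ) (h : G → G → ℝ) :=
  sym (fun p q r => (1 + pat T h p q r) / 2)

/-- The small component. -/
noncomputable def rest (T : I → I → I → ℝ) (h : G → G → ℝ) (p q r : I × G) : ℝ :=
  if T p.1 q.1 r.1 = 0 then h p.2 q.2 else 0

/-- The vertex set. -/
abbrev Vx (I G : Type) : Type := Fin 3 × I × G × Bool × Bool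

/-- The three projections and their weights. -/
def f1 (u : Vx I G) : Fin 3 × Unit := (u.1, ())
/-- The three projections and their weights. -/
def f2 (u : Vx I G) : Fin 3 × I := (u.1, u.2.1)
/-- The three projections and their weights. -/
def f3 (u : Vx I G) : Fin 3 × I × G := (u.1, u.2.1, u.2.2.1)
/-- The three projections and their weights. -/
def w1 (_ : Vx I G) : ℝ := 1
/-- The three projections and their weights. -/
def w2 (u : Vx I G) : ℝ := sg u.2.2.2.1
/-- The three projections and their weights. -/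
def w3 (u : Vx I G) : ℝ := sg u.2.2.2.2

theorem cut_blow (T : I → I → I → ℝ) (h : G → G → ℝ) (u v w : Vx I G) :
    cut (fun p q r => (1 + pat T h p q r) / 2) u v w =
      1 / 2 * (cut (fun _ _ _ => 1) (f1 u) (f1 v) (f1 w) * w1 u * w1 v * w1 w +
        cut T (f2 u) (f2 v) (f2 w) * w2 u * w2 v * w2 w +
        cut (rest T h) (f3 u) (f3 v) (f3 w) * w3 u * w3 v * w3 w) := by
  simp only [cut, pat, rest, f1, f2, f3, w1, w2, w3]
  split_ifs with h1 h2
  · rw [h2]; ring
  · ring
  · ring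

theorem tri_blow (T : I → I → I → ℝ) (h : G → G → ℝ) (x y z : Vx I G → ℝ) :
    tri (blow T h) x y z =
      1 / 2 * (tri (sym fun _ _ _ => 1) (push f1 w1 x) (push f1 w1 y) (push f1 w1 z) +
        tri (sym T) (push f2 w2 x) (push f2 w2 y) (push f2 w2 z) +
        tri (sym (rest T h)) (push f3 w3 x) (push f3 w3 y) (push f3 w3 z)) := by
  rw [tri_push, tri_push, tri_push, ← tri_add, ← tri_add, ← tri_mul]
  refine congrArg (fun A => tri A x y z) ?_
  funext u v w
  simp only [blow, sym, cut_blow]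
  ring

theorem push1 (x : Vx I G → ℝ) (s : Fin 3 × Unit) : push f1 w1 x s =
    ∑ i, ∑ a, (x (s.1, i, a, true, true) + x (s.1, i, a, true, false) +
      (x (s.1, i, a, false, true) + x (s.1, i, a, false, false))) := by
  obtain ⟨s, ⟨⟩⟩ := s
  rw [push, Fintype.sum_prod_type, sum_eq_single s (fun t _ ht => by simp [f1, ht]) (by simp)]
  simp [f1, w1, Fintype.sum_prod_type]

theorem push2 (x : Vx I G → ℝ) (s : Fin 3 × I) : push f2 w2 x s =
    ∑ a, (-x (s.1, s.2, a, true, true) + -x (s.1, s.2, a, true, false) +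
      (x (s.1, s.2, a, false, true) + x (s.1, s.2, a, false, false))) := by
  obtain ⟨s, i⟩ := s
  simp [push, f2, w2, sg, Fintype.sum_prod_type, ite_and]

theorem push3 (x : Vx I G → ℝ) (s : Fin 3 × I × G) : push f3 w3 x s =
    (-x (s.1, s.2.1, s.2.2, true, true) + x (s.1, s.2.1, s.2.2, true, false) +
      (-x (s.1, s.2.1, s.2.2, false, true) + x (s.1, s.2.1, s.2.2, false, false))) := by
  obtain ⟨s, i, a⟩ := s
  simp [push, f3, w3, sg, Fintype.sum_prod_type, ite_and]

theorem p11 (a : Fin 3 × Unit → ℝ) : push (J := Vx I G) f1 w1 (pull f1 w1 a) =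
    (4 * (Fintype.card I * Fintype.card G) : ℝ) • a := by
  funext s; obtain ⟨s, ⟨⟩⟩ := s; simp [push1, pull, f1, w1]; ring

theorem p21 (a : Fin 3 × Unit → ℝ) : push (J := Vx I G) f2 w2 (pull f1 w1 a) = 0 := by
  funext s; simp [push2, pull, f1, w1]

theorem p31 (a : Fin 3 × Unit → ℝ) : push (J := Vx I G) f3 w3 (pull f1 w1 a) = 0 := by
  funext s; simp [push3, pull, f1, w1]

theorem p12 (a : Fin 3 × I → ℝ) : push (J := Vx I G) f1 w1 (pull f2 w2 a) = 0 := by
  funext s; simp [push1, pull, f2, w2, sg]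

theorem p22 (a : Fin 3 × I → ℝ) : push (J := Vx I G) f2 w2 (pull f2 w2 a) =
    (4 * Fintype.card G : ℝ) • a := by
  funext s; simp [push2, pull, f2, w2, sg]; ring

theorem p32 (a : Fin 3 × I → ℝ) : push (J := Vx I G) f3 w3 (pull f2 w2 a) = 0 := by
  funext s; simp [push3, pull, f2, w2, sg]

theorem p13 (a : Fin 3 × I × G → ℝ) : push (J := Vx I G) f1 w1 (pull f3 w3 a) = 0 := by
  funext s; simp [push1, pull, f3, w3, sg]

theorem p23 (a : Fin 3 × I × G → ℝ) : push (J := Vx I G) f2 w2 (pull f3 w3 a) = 0 := by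
  funext s; simp [push2, pull, f3, w3, sg]

theorem p33 (a : Fin 3 × I × G → ℝ) : push (J := Vx I G) f3 w3 (pull f3 w3 a) =
    (4 : ℝ) • a := by
  funext s; simp [push3, pull, f3, w3, sg]; ring

theorem tri_s1 {A : Type} [Fintype A] (S : A → A → A → ℝ) (c : ℝ) (x y z : A → ℝ) :
    tri S (c • x) y z = c * tri S x y z := by simpa using tri_smul S c 1 1 x y z

theorem tri_s2 {A : Type} [Fintype A] (S : A → A → A → ℝ) (c : ℝ) (x y z : A → ℝ) :
    tri S x (c • y) z = c * tri S x y z := by simpa using tri_smul S 1 c 1 x y z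

theorem tri_s3 {A : Type} [Fintype A] (S : A → A → A → ℝ) (c : ℝ) (x y z : A → ℝ) :
    tri S x y (c • z) = c * tri S x y z := by simpa using tri_smul S 1 1 c x y z

variable {T : I → I → I → ℝ} {h : G → G → ℝ} {l : ℝ} {x y z : Vx I G → ℝ}

theorem ws1 (H : WS (blow T h) l x y z) {κ : ℝ}
    (hκ : 2 * (Fintype.card I * Fintype.card G) * κ = l)
    (hc : (Fintype.card I * Fintype.card G : ℝ) ≠ 0) :
    WS (sym fun _ _ _ => 1) κ (push f1 w1 x) (push f1 w1 y) (push f1 w1 z) := by
  refine ⟨fun a => ?_, fun a => ?_, fun a => ?_⟩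
  · have := H.1 (pull f1 w1 a)
    rw [tri_blow, p11, p21, p31, tri_s1, tri_zero1, tri_zero1, ← dot_push, ← hκ] at this
    exact mul_left_cancel₀ hc (by linarith)
  · have := H.2.1 (pull f1 w1 a)
    rw [tri_blow, p11, p21, p31, tri_s2, tri_zero2, tri_zero2, ← dot_push, ← hκ] at this
    exact mul_left_cancel₀ hc (by linarith)
  · have := H.2.2 (pull f1 w1 a)
    rw [tri_blow, p11, p21, p31, tri_s3, tri_zero3, tri_zero3, ← dot_push, ← hκ] at this
    exact mul_left_cancel₀ hc (by linarith)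

theorem ws2 (H : WS (blow T h) l x y z) {κ : ℝ} (hκ : 2 * Fintype.card G * κ = l)
    (hc : (Fintype.card G : ℝ) ≠ 0) :
    WS (sym T) κ (push f2 w2 x) (push f2 w2 y) (push f2 w2 z) := by
  refine ⟨fun a => ?_, fun a => ?_, fun a => ?_⟩
  · have := H.1 (pull f2 w2 a)
    rw [tri_blow, p12, p22, p32, tri_s1, tri_zero1, tri_zero1, ← dot_push, ← hκ] at this
    exact mul_left_cancel₀ hc (by linarith)
  · have := H.2.1 (pull f2 w2 a)
    rw [tri_blow, p12, p22, p32, tri_s2, tri_zero2, tri_zero2, ← dot_push, ← hκ] at this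
    exact mul_left_cancel₀ hc (by linarith)
  · have := H.2.2 (pull f2 w2 a)
    rw [tri_blow, p12, p22, p32, tri_s3, tri_zero3, tri_zero3, ← dot_push, ← hκ] at this
    exact mul_left_cancel₀ hc (by linarith)

theorem ws3 (H : WS (blow T h) l x y z) :
    WS (sym (rest T h)) (l / 2) (push f3 w3 x) (push f3 w3 y) (push f3 w3 z) := by
  refine ⟨fun a => ?_, fun a => ?_, fun a => ?_⟩
  · have := H.1 (pull f3 w3 a)
    rw [tri_blow, p13, p23, p33, tri_s1, tri_zero1, tri_zero1, ← dot_push] at this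
    linarith
  · have := H.2.1 (pull f3 w3 a)
    rw [tri_blow, p13, p23, p33, tri_s2, tri_zero2, tri_zero2, ← dot_push] at this
    linarith
  · have := H.2.2 (pull f3 w3 a)
    rw [tri_blow, p13, p23, p33, tri_s3, tri_zero3, tri_zero3, ← dot_push] at this
    linarith

end Pool.Agent.Lib.MP_acf5a6_lc.Hy
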