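import Pool.Agent.Lib.MP_acf5a6_lc.Defs

/-!
The eigenvalue problem for adjacency tensors of 3-partite hypergraphs as a language of bit strings.
-/

set_option autoImplicit false

namespace Pool.Agent.Lib.MP_acf5a6_lc

/-- `T` is the adjacency tensor of a 3-partite 3-uniform hypergraph on the vertex set `Fin d`: its
entries are `0` or `1`, it is symmetric, and there is a colouring of the indices with three colours
such that the indices of a nonzero entry have different colours. -/
def IsHypergraph {d : ℕ} (T : Fin d → Fin d → Fin d → ℚ) : Prop :=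
  (∀ i j k, T i j k = 0 ∨ T i j k = 1) ∧ (∀ i j k, T i j k = T j i k) ∧
    (∀ i j k, T i j k = T i k j) ∧
    ∃ c : Fin d → Fin 3, ∀ i j k, T i j k ≠ 0 → c i ≠ c j ∧ c i ≠ c k ∧ c j ≠ c k

/-- `σ` is an `ℓ²` eigenvalue (Z-eigenvalue) of the tensor `T`. -/
def IsEigenvalue {d : ℕ} (T : Fin d → Fin d → Fin d → ℚ) (σ : ℝ) : Prop :=
  ∃ x : Fin d → ℝ, ∑ i, x i ^ 2 = 1 ∧ ∀ i, ∑ j, ∑ k, (T i j k : ℝ) * x j * x k = σ * x i

open Classical in
/-- Hypergraph Eigenvalue: binary codes (as for `TSV`) of pairs `(T, σ)` with `T` the adjacency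
tensor of a 3-partite 3-uniform hypergraph, `σ` a positive integer and an eigenvalue of `T`. -/
noncomputable def HEV : N68a2faeb.DecisionProblem := fun s =>
  decide (∃ (d : ℕ) (T : Fin d → Fin d → Fin d → ℚ) (σ : ℕ),
    s = N487b59b3.bitEncode
      ((List.ofFn fun i => List.ofFn fun j => List.ofFn fun k => T i j k), (σ : ℚ)) ∧
    IsHypergraph T ∧ 0 < σ ∧ IsEigenvalue T σ)

end Pool.Agent.Lib.MP_acf5a6_lc
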