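import Pool.Agent.Lib.MP_acf5a6_lc.Hy.Blow
import Pool.Agent.Lib.MP_acf5a6_lc.Check

/-!
Sylvester's Hadamard matrices, computed in polynomial time from the bits of the indices.
-/

set_option autoImplicit false

namespace Pool.Agent.Lib.MP_acf5a6_lc.Hy

open Finset

/-- One step of the scalar product of two bit strings modulo two. -/
def hstep (s : ℕ × Bool) (x : Bool) : ℕ × Bool := (s.1.div2, xor s.2 (x && s.1.bodd))

/-- The scalar product modulo two of the binary expansions. -/
def had (a b : ℕ) : Bool := (a.bits.foldl hstep (b, false)).2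

theorem hstep_acc (l : List Bool) : ∀ (b : ℕ) (c : Bool),
    (l.foldl hstep (b, c)).2 = xor c (l.foldl hstep (b, false)).2 := by
  induction l with
  | nil => intro b c; simp
  | cons x l ih =>
    intro b c
    simp only [List.foldl_cons, hstep]
    rw [ih, ih _ (false ^^ (x && b.bodd))]
    simp

theorem had_bit (x y : Bool) (a b : ℕ) :
    had (Nat.bit x a) (Nat.bit y b) = xor (x && y) (had a b) := by
  by_cases h : a = 0 ∧ x = false
  · obtain ⟨rfl, rfl⟩ := h
    simp [had]
  · have h' : a = 0 → x = true := fun h0 => by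
      by_contra hb; exact h ⟨h0, by simpa using hb⟩
    rw [had, Nat.bits_append_bit _ _ h', List.foldl_cons, hstep, hstep_acc]
    simp [had]

theorem sum_range_two (n : ℕ) (f : ℕ → ℝ) :
    ∑ i ∈ range (2 * n), f i = ∑ i ∈ range n, (f (Nat.bit false i) + f (Nat.bit true i)) := by
  induction n with
  | zero => simp
  | succ n ih =>
    rw [show 2 * (n + 1) = 2 * n + 1 + 1 by ring, sum_range_succ, sum_range_succ, ih,
      sum_range_succ]
    simp [Nat.bit_val, add_assoc]

theorem sg_not (b : Bool) : sg (!b) = -sg b := by cases b <;> simp [sg]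

theorem had_orth (K : ℕ) : ∀ x : ℕ → ℝ,
    ∑ b ∈ range (2 ^ K), (∑ a ∈ range (2 ^ K), sg (had a b) * x a) ^ 2 =
      2 ^ K * ∑ a ∈ range (2 ^ K), x a ^ 2 := by
  induction K with
  | zero => intro x; simp [had, sg]
  | succ K ih =>
    intro x
    rw [pow_succ' 2 K]
    simp only [sum_range_two, had_bit, Bool.false_and, Bool.and_false, Bool.false_xor,
      Bool.and_self, Bool.true_xor, sg_not, sum_add_distrib, neg_mul, sum_neg_distrib]
    have h0 := ih (fun a => x (Nat.bit false a))
    have h1 := ih (fun a => x (Nat.bit true a))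
    rw [← sum_add_distrib, pow_succ' (2 : ℝ) K, mul_assoc, mul_add, ← h0, ← h1, ← sum_add_distrib,
      mul_sum]
    exact sum_congr rfl (fun b _ => by ring)

theorem had_fin {N K : ℕ} (hN : N = 2 ^ K) (x : Fin N → ℝ) :
    ∑ b : Fin N, (∑ a : Fin N, sg (had a b) * x a) ^ 2 = N * ∑ a, x a ^ 2 := by
  let y : ℕ → ℝ := fun a => if h : a < N then x ⟨a, h⟩ else 0
  have e : ∀ a : Fin N, x a = y a := fun a => by simp [y]
  simp only [e]
  rw [Fin.sum_univ_eq_sum_range (fun a => y a ^ 2)]
  simp only [fun b : ℕ => Fin.sum_univ_eq_sum_range (fun a => sg (had a b) * y a) N]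
  rw [Fin.sum_univ_eq_sum_range (fun b => (∑ a ∈ range N, sg (had a b) * y a) ^ 2), hN, had_orth]
  norm_cast

open N487b59b3 in
@[fun_prop] theorem had_PT {α : Type} [N487b59b3 α] {f g : α → ℕ} (hf : PT f) (hg : PT g) :
    PT (fun a => had (f a) (g a)) := by
  have h1 := PT.foldlA (g := fun _ : α => hstep) (h := fun a => (g a, false))
    (l := fun a => (f a).bits) (by unfold hstep; fun_prop) (by fun_prop) (by fun_prop)
    (PB.const 0) (fun a c b => by
      obtain ⟨c, s⟩ := c
      have := sz_nat_mono (m := c.div2) (n := c) (by rw [Nat.div2_val]; omega)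
      simp only [hstep, sz_pair, sz_bool]; omega)
  exact PT.snd h1

end Pool.Agent.Lib.MP_acf5a6_lc.Hy
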