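import Pool.Agent.Lib.MP_acf5a6_lc.Hy.Blow

/-!
The singular values of the blown-up tensor.
-/

set_option autoImplicit false
set_option linter.unusedSectionVars false

namespace Pool.Agent.Lib.MP_acf5a6_lc.Hy

open Finset

variable {I G : Type} [Fintype I] [Fintype G] [DecidableEq I] [DecidableEq G]

theorem ws_norms {A : Type} [Fintype A] {S : A → A → A → ℝ} {κ : ℝ} {a b c : A → ℝ} (hκ : κ ≠ 0)
    (H : WS S κ a b c) : tri S a b c = κ * dot a a ∧ dot b b = dot a a ∧ dot c c = dot a a :=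
  ⟨H.1 a, mul_left_cancel₀ hκ ((H.2.1 b).symm.trans (H.1 a)),
    mul_left_cancel₀ hκ ((H.2.2 c).symm.trans (H.1 a))⟩

theorem nr_parts {J : Type} [Fintype J] (x : Fin 3 × J → ℝ) :
    nr (part x 0) ^ 2 + nr (part x 1) ^ 2 + nr (part x 2) ^ 2 = dot x x := by
  rw [nr_sq, nr_sq, nr_sq, dot_part]

theorem nr_part_le {J : Type} [Fintype J] (x : Fin 3 × J → ℝ) (s : Fin 3) :
    nr (part x s) ≤ nr x := by
  have h := dot_part x x
  have h0 := dot_nonneg (part x 0)
  have h1 := dot_nonneg (part x 1)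
  have h2 := dot_nonneg (part x 2)
  refine Real.sqrt_le_sqrt ?_
  fin_cases s
  · exact (by linarith : dot (part x 0) (part x 0) ≤ dot x x)
  · exact (by linarith : dot (part x 1) (part x 1) ≤ dot x x)
  · exact (by linarith : dot (part x 2) (part x 2) ≤ dot x x)

theorem mid_zero {T : I → I → I → ℝ} {s L : ℝ} (hs : 0 < s) (hL : 0 < L)
    (hb : ∀ x y z, tri T x y z ≤ √3 * s * (nr x * nr y * nr z))
    (hn : ¬ ∃ x y z, dot x x = 1 ∧ dot y y = 1 ∧ dot z z = 1 ∧ tri T x y z = √3 * s)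
    {a b c : Fin 3 × I → ℝ} (H : WS (sym T) (4 * L * s) a b c) (ha : dot a a ≤ 4 * L ^ 2) :
    tri (sym T) a b c = 0 := by
  obtain ⟨e1, e2, e3⟩ := ws_norms (by positivity) H
  have hρ := nr_nonneg a
  have hρ2 := nr_sq a
  have hρ3 : nr a ≤ 2 * L := (abs_le_of_sq_le_sq' (by linarith) (by positivity)).2
  have hp := perm_sq (nr (part a 0)) (nr (part a 1)) (nr (part a 2)) (nr (part b 0))
    (nr (part b 1)) (nr (part b 2)) (nr (part c 0)) (nr (part c 1)) (nr (part c 2))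
  rw [nr_parts, nr_parts, nr_parts, e2, e3, ← hρ2] at hp
  have h3 : √3 ^ 2 = 3 := Real.sq_sqrt (by norm_num)
  have hp' := (abs_le_of_sq_le_sq' (a := √3 * (nr (part a 0) * nr (part b 1) * nr (part c 2) +
    nr (part a 0) * nr (part c 1) * nr (part b 2) + nr (part b 0) * nr (part a 1) * nr (part c 2) +
    nr (part b 0) * nr (part c 1) * nr (part a 2) + nr (part c 0) * nr (part a 1) * nr (part b 2) +
    nr (part c 0) * nr (part b 1) * nr (part a 2))) (b := 2 * nr a ^ 3)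
    (by rw [mul_pow, h3]; linarith) (by positivity)).2
  have hq : s * (2 * nr a ^ 3) ≤ 4 * L * s * nr a ^ 2 := by
    have := mul_le_mul_of_nonneg_left hρ3 (show 0 ≤ 2 * s * nr a ^ 2 by positivity)
    linarith
  have hp'' := mul_le_mul_of_nonneg_left hp' hs.le
  rw [← hρ2, tri_sym] at e1
  rw [tri_sym]
  have t1 := hb (part a 0) (part b 1) (part c 2)
  have t2 := hb (part a 0) (part c 1) (part b 2)
  have t3 := hb (part b 0) (part a 1) (part c 2)
  have t4 := hb (part b 0) (part c 1) (part a 2)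
  have t5 := hb (part c 0) (part a 1) (part b 2)
  have t6 := hb (part c 0) (part b 1) (part a 2)
  rw [strict_of_not hn (le_antisymm t1 (by linarith)),
    strict_of_not hn (le_antisymm t2 (by linarith)),
    strict_of_not hn (le_antisymm t3 (by linarith)),
    strict_of_not hn (le_antisymm t4 (by linarith)),
    strict_of_not hn (le_antisymm t5 (by linarith)),
    strict_of_not hn (le_antisymm t6 (by linarith))]
  norm_num

theorem rest_le (T : I → I → I → ℝ) {h : G → G → ℝ} {L : ℝ} (hL : 0 < L)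
    (hG : (Fintype.card G : ℝ) = L ^ 2)
    (hh : ∀ x : G → ℝ, ∑ b, (∑ a, h a b * x a) ^ 2 ≤ L ^ 2 * ∑ a, x a ^ 2)
    (x y z : I × G → ℝ) :
    tri (rest T h) x y z ≤ L ^ 2 * Fintype.card I ^ 2 * (nr x * nr y * nr z) := by
  set g : I × G → ℝ := fun q => ∑ p, ∑ r, rest T h p q r * x p * z r with hg
  let H : I → G → ℝ := fun i b => ∑ a, h a b * x (i, a)
  let ζ : I → ℝ := fun k => ∑ c, z (k, c)
  have e1 : ∀ q, g q = ∑ ik : I × I,
      (if T ik.1 q.1 ik.2 = 0 then 1 else 0) * (H ik.1 q.2 * ζ ik.2) := by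
    intro q
    simp only [hg, H, ζ, rest, Fintype.sum_prod_type]
    refine sum_congr rfl (fun i _ => ?_)
    rw [sum_comm]
    refine sum_congr rfl (fun k _ => ?_)
    split_ifs
    · rw [one_mul, sum_mul_sum]
    · simp
  have e2 : ∀ q, g q ^ 2 ≤
      Fintype.card I ^ 2 * ((∑ i, H i q.2 ^ 2) * ∑ k, ζ k ^ 2) := by
    intro q
    rw [e1]
    refine (sum_mul_sq_le_sq_mul_sq _ _ _).trans ?_
    have : ∑ ik : I × I, (H ik.1 q.2 * ζ ik.2) ^ 2 = (∑ i, H i q.2 ^ 2) * ∑ k, ζ k ^ 2 := by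
      simp only [Fintype.sum_prod_type, mul_pow, sum_mul_sum]
    rw [this]
    refine mul_le_mul_of_nonneg_right ?_ (by positivity)
    refine (sum_le_card_nsmul _ _ 1 (fun ik _ => by split_ifs <;> norm_num)).trans ?_
    simp [sq]
  have e3 : ∑ b, ∑ i, H i b ^ 2 ≤ L ^ 2 * dot x x := by
    rw [sum_comm, dot_self, Fintype.sum_prod_type, mul_sum]
    exact sum_le_sum (fun i _ => hh (fun a => x (i, a)))
  have e4 : ∑ k, ζ k ^ 2 ≤ L ^ 2 * dot z z := by
    rw [dot_self, Fintype.sum_prod_type, mul_sum, ← hG]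
    exact sum_le_sum (fun k _ => sq_sum_le_card_mul_sum_sq)
  have e5 : dot g g ≤ Fintype.card I ^ 3 * ((L ^ 2 * dot x x) * (L ^ 2 * dot z z)) := by
    rw [dot_self]
    refine (sum_le_sum (fun q _ => e2 q)).trans ?_
    rw [Fintype.sum_prod_type]
    simp only [← mul_sum, ← sum_mul, sum_const, card_univ, nsmul_eq_mul]
    have := mul_le_mul e3 e4 (by positivity) (mul_nonneg (by positivity) (dot_nonneg x))
    have h2 := mul_le_mul_of_nonneg_left this
      (show (0 : ℝ) ≤ Fintype.card I ^ 3 by positivity)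
    linarith
  have e6 : (Fintype.card I : ℝ) ^ 3 ≤ Fintype.card I ^ 4 := by
    rcases Nat.eq_zero_or_pos (Fintype.card I) with h0 | h0
    · simp [h0]
    · exact pow_le_pow_right₀ (by exact_mod_cast h0) (by norm_num)
  have hx := nr_nonneg x
  have hy := nr_nonneg y
  have hz := nr_nonneg z
  have e7 : nr g ≤ L ^ 2 * Fintype.card I ^ 2 * (nr x * nr z) := by
    refine (abs_le_of_sq_le_sq' ?_ (by positivity)).2
    rw [nr_sq]
    refine e5.trans ?_
    rw [← nr_sq x, ← nr_sq z]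
    have := mul_le_mul_of_nonneg_right e6
      (show 0 ≤ (L ^ 2 * nr x ^ 2) * (L ^ 2 * nr z ^ 2) by positivity)
    linarith
  rw [tri_dot2]
  refine (dot_le _ _).trans ?_
  have := mul_le_mul_of_nonneg_left e7 hy
  linarith

theorem small_zero {R : I → I → I → ℝ} {C κ : ℝ} (hC : 0 ≤ C) (hκ : 12 * C < κ)
    (hb : ∀ x y z, tri R x y z ≤ C * (nr x * nr y * nr z))
    {a b c : Fin 3 × I → ℝ} (H : WS (sym R) κ a b c) (ha : dot a a ≤ 4) :
    tri (sym R) a b c = 0 := by
  obtain ⟨e1, e2, e3⟩ := ws_norms (by linarith) H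
  have hρ := nr_nonneg a
  have hρ2 := nr_sq a
  have hρ3 : nr a ≤ 2 := (abs_le_of_sq_le_sq' (by linarith) (by positivity)).2
  have hb' : ∀ {u v w : Fin 3 × I → ℝ}, dot u u = dot a a → dot v v = dot a a →
      dot w w = dot a a → tri R (part u 0) (part v 1) (part w 2) ≤ C * (2 * nr a ^ 2) := by
    intro u v w hu hv hw
    refine (hb _ _ _).trans (mul_le_mul_of_nonneg_left ?_ hC)
    have h1 : nr (part u 0) ≤ 2 := by
      refine le_trans (nr_part_le u 0) ?_
      rwa [nr, hu]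
    have h2 : nr (part v 1) ≤ nr a := by simpa only [nr, hv] using nr_part_le v 1
    have h3 : nr (part w 2) ≤ nr a := by simpa only [nr, hw] using nr_part_le w 2
    have := mul_le_mul (mul_le_mul h1 h2 (nr_nonneg _) (by norm_num)) h3 (nr_nonneg _)
      (by positivity)
    linarith
  have e4 := e1
  rw [tri_sym, ← hρ2] at e4
  have t : κ * nr a ^ 2 ≤ 12 * C * nr a ^ 2 := by
    linarith [hb' rfl e2 e3, hb' rfl e3 e2, hb' e2 rfl e3, hb' e2 e3 rfl, hb' e3 rfl e2,
      hb' e3 e2 rfl]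
  have : nr a ^ 2 = 0 := by nlinarith [sq_nonneg (nr a)]
  rw [e1, ← hρ2, this, mul_zero]

theorem big_low {κ : ℝ} (hκ : 0 < κ) {a b c : Fin 3 × Unit → ℝ}
    (H : WS (sym fun _ _ _ : Unit => (1 : ℝ)) κ a b c) : dot a a ≤ κ ^ 2 := by
  obtain ⟨-, e2, -⟩ := ws_norms hκ.ne' H
  have A := fun s : Fin 3 => H.1 (fun u => if u.1 = s then 1 else 0)
  have B := fun s : Fin 3 => H.2.1 (fun u => if u.1 = s then 1 else 0)
  have C := fun s : Fin 3 => H.2.2 (fun u => if u.1 = s then 1 else 0)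
  have a0 := A 0
  have a1 := A 1
  have a2 := A 2
  have b0 := B 0
  have b1 := B 1
  have b2 := B 2
  have c0 := C 0
  have c1 := C 1
  have c2 := C 2
  rw [tri_sym, dot_part] at a0 a1 a2 b0 b1 b2 c0 c1 c2
  rw [dot_part a, dot_part b] at e2
  rw [dot_part]
  simp [tri, dot, part] at a0 a1 a2 b0 b1 b2 c0 c1 c2 e2 ⊢
  exact perm_low (a0 := a (0, ())) (a1 := a (1, ())) (a2 := a (2, ())) (b0 := b (0, ()))
    (b1 := b (1, ())) (b2 := b (2, ())) (c0 := c (0, ())) (c1 := c (1, ())) (c2 := c (2, ())) hκ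
    (by ring) (by linarith) (by linarith) (by linarith) (by linarith) (by linarith) (by linarith)
    (by linarith) (by linarith) (by linarith) (by linarith)

theorem blow_sound {T : I → I → I → ℝ} {h : G → G → ℝ} {s L : ℝ} (hs : 0 < s) (hL : 0 < L)
    (hG : (Fintype.card G : ℝ) = L ^ 2)
    (hh : ∀ x : G → ℝ, ∑ b, (∑ a, h a b * x a) ^ 2 ≤ L ^ 2 * ∑ a, x a ^ 2)
    (h1 : 3 * (Fintype.card I : ℝ) ^ 2 < L * s) (h2 : 4 * s ^ 2 < (Fintype.card I : ℝ) ^ 3)
    (hb : ∀ x y z, tri T x y z ≤ √3 * s * (nr x * nr y * nr z))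
    {x y z : Vx I G → ℝ} (hx : dot x x = 1) (H : WS (blow T h) (8 * L ^ 3 * s) x y z) :
    ∃ x y z, dot x x = 1 ∧ dot y y = 1 ∧ dot z z = 1 ∧ tri T x y z = √3 * s := by
  by_contra hn
  have hm : (0 : ℝ) < Fintype.card I := by
    rcases (Nat.cast_nonneg (α := ℝ) (Fintype.card I)).eq_or_lt with e | e
    · rw [← e] at h2; nlinarith
    · exact e
  obtain ⟨m, hmd⟩ : ∃ m : ℝ, m = (Fintype.card I : ℝ) := ⟨_, rfl⟩
  rw [← hmd] at h1 h2 hm
  have z2 := mid_zero hs hL hb hn (ws2 (κ := 4 * L * s) H (by rw [hG]; ring)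
    (by rw [hG]; positivity)) (by
      have := push_le (by positivity) (p22 (I := I) (G := G)) x
      rwa [hx, mul_one, hG] at this)
  have z3 := small_zero (C := L ^ 2 * m ^ 2) (by positivity)
    (by nlinarith [mul_lt_mul_of_pos_left h1 (show 0 < L ^ 2 by positivity)])
    (by rw [hmd]; exact rest_le T hL hG hh) (ws3 H) (by
      have := push_le (by positivity) (p33 (I := I) (G := G)) x
      rwa [hx, mul_one] at this)
  have hκ : 0 < 4 * L * s / m := by positivity
  have w := ws1 (κ := 4 * L * s / m) H (by rw [hG, ← hmd]; field_simp; ring)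
    (by rw [hG, ← hmd]; positivity)
  have e := H.1 x
  rw [tri_blow, z2, z3, w.1, hx] at e
  have e1 : dot (push f1 w1 x) (push f1 w1 x) = 4 * L ^ 2 * m := by
    refine mul_left_cancel₀ hκ.ne' ?_
    have : 4 * L * s / m * (4 * L ^ 2 * m) = 16 * L ^ 3 * s := by field_simp; ring
    linarith
  have e2 := big_low hκ w
  rw [e1, div_pow, le_div_iff₀ (by positivity)] at e2
  nlinarith [mul_lt_mul_of_pos_left h2 (show 0 < L ^ 2 by positivity)]

theorem blow_complete {T : I → I → I → ℝ} (h : G → G → ℝ) {s L : ℝ} (hL : 0 < L)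
    (hG : (Fintype.card G : ℝ) = L ^ 2)
    (hb : ∀ x y z, tri T x y z ≤ √3 * s * (nr x * nr y * nr z))
    {x y z : I → ℝ} (hx : dot x x = 1) (hy : dot y y = 1) (hz : dot z z = 1)
    (H : tri T x y z = √3 * s) : ∃ u : Vx I G → ℝ, dot u u = 1 ∧
      ∀ a, tri (blow T h) a u u = 8 * L ^ 3 * s * dot a u := by
  obtain ⟨k1, k2, k3⟩ := ws_of_max hb hx hy hz H
  let v : Fin 3 × I → ℝ := fun u => ![x, y, z] u.1 u.2
  have v0 : part v 0 = x := rfl
  have v1 : part v 1 = y := rfl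
  have v2 : part v 2 = z := rfl
  have h3 : √3 ^ 2 = 3 := Real.sq_sqrt (by norm_num)
  refine ⟨(√3 / (6 * L)) • pull f2 w2 v, ?_, fun a => ?_⟩
  · rw [dot_smul, smul_dot, ← dot_push, p22, dot_smul, dot_part, v0, v1, v2, hx, hy, hz, hG]
    field_simp
    rw [h3]; norm_num
  · rw [tri_s2, tri_s3, tri_blow, p12, p22, p32, tri_zero2, tri_zero2, tri_s2, tri_s3, dot_smul,
      dot_comm a, ← dot_push, dot_comm v, tri_sym, dot_part, v0, v1, v2, k1, k2, k3, hG]
    field_simp
    linear_combination 32 * L ^ 4 * s * (dot (part (push f2 w2 a) 0) x +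
      dot (part (push f2 w2 a) 1) y + dot (part (push f2 w2 a) 2) z) * h3

end Pool.Agent.Lib.MP_acf5a6_lc.Hy
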