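import Pool.Agent.Lib.MP_acf5a6_lc.Hy.Rows

/-!
Removal of large constants and bounds for the Gram matrix.
-/

set_option autoImplicit false

namespace Pool.Agent.Lib.MP_acf5a6_lc.Hy

open N487b59b3

/-- The value of a bit. -/
def bitZ (b : Bool) : ℤ := cond b 1 0

/-- The sign of an integer (`-1` for zero). -/
def sgnZ (c : ℤ) : ℤ := if 0 < c.toNat then 1 else -1

/-- The Horner term of a list of bits. -/
def natT : List Bool → Term
  | [] => .const 0
  | b :: l => .add (.mul (natT l) (.const 2)) (.const (bitZ b))

/-- A term with small constants. -/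
def exT : Term → Term
  | .var k => .var k
  | .const c => .mul (natT c.natAbs.bits) (.const (sgnZ c))
  | .add s t => .add (exT s) (exT t)
  | .mul s t => .mul (exT s) (exT t)

/-- A formula with small constants. -/
def exF : Formula → Formula
  | .eq s t => .eq (exT s) (exT t)
  | .lt s t => .lt (exT s) (exT t)
  | .le s t => .le (exT s) (exT t)
  | .not φ => .not (exF φ)
  | .and φ ψ => .and (exF φ) (exF ψ)
  | .or φ ψ => .or (exF φ) (exF ψ)

/-- The expansion of one symbol. -/
def tok (t : ℕ × ℤ) : List (ℕ × ℤ) :=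
  if t.1 = 1 then ((1, 0) :: t.2.natAbs.bits.reverse.flatMap fun b =>
    [(1, 2), (3, 0), (1, bitZ b), (2, 0)]) ++ [(1, sgnZ t.2), (3, 0)] else [t]

/-- The preprocessing of a list of symbols. -/
def pre (ts : List (ℕ × ℤ)) : List (ℕ × ℤ) :=
  cond (wf ts) (ts.flatMap tok) [(1, 0), (1, 0), (5, 0)]

theorem val_natT (x : ℕ → ℝ) (n : ℕ) : termVal x (natT n.bits) = n := by
  induction n using Nat.binaryRec' with
  | zero => simp [natT, termVal]
  | bit b n h ih =>
    rw [Nat.bits_append_bit _ _ h, natT, Nat.bit_val]
    cases b <;> simp [termVal, ih, bitZ] <;> ring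

theorem val_exT (x : ℕ → ℝ) (t : Term) : termVal x (exT t) = termVal x t := by
  induction t with
  | var k => rfl
  | const c =>
    simp only [exT, termVal, val_natT, sgnZ]
    have : (c.natAbs : ℤ) * (if 0 < c.toNat then 1 else -1) = c := by split_ifs <;> omega
    rw [← Int.cast_natCast, ← Int.cast_mul, this]
  | add s t hs ht => simp only [exT, termVal, hs, ht]
  | mul s t hs ht => simp only [exT, termVal, hs, ht]

theorem holds_exF (x : ℕ → ℝ) (φ : Formula) : Holds x (exF φ) ↔ Holds x φ := by
  induction φ with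
  | eq s t => simp only [exF, Holds, val_exT]
  | lt s t => simp only [exF, Holds, val_exT]
  | le s t => simp only [exF, Holds, val_exT]
  | not φ h => simp only [exF, Holds, h]
  | and φ ψ h h' => simp only [exF, Holds, h, h']
  | or φ ψ h h' => simp only [exF, Holds, h, h']

theorem code_natT (l : List Bool) : termCode (natT l) =
    (1, 0) :: l.reverse.flatMap fun b => [(1, 2), (3, 0), (1, bitZ b), (2, 0)] := by
  induction l with
  | nil => rfl
  | cons b l ih => simp [natT, termCode, ih]

theorem code_exT (t : Term) : termCode (exT t) = (termCode t).flatMap tok := by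
  induction t with
  | var k => simp [exT, termCode, tok]
  | const c => simp [exT, termCode, tok, code_natT]
  | add s t hs ht => simp [exT, termCode, hs, ht, tok]
  | mul s t hs ht => simp [exT, termCode, hs, ht, tok]

theorem code_exF (φ : Formula) : formulaCode (exF φ) = (formulaCode φ).flatMap tok := by
  induction φ with
  | eq s t => simp [exF, formulaCode, code_exT, tok]
  | lt s t => simp [exF, formulaCode, code_exT, tok]
  | le s t => simp [exF, formulaCode, code_exT, tok]
  | not φ h => simp [exF, formulaCode, h, tok]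
  | and φ ψ h h' => simp [exF, formulaCode, h, h', tok]
  | or φ ψ h h' => simp [exF, formulaCode, h, h', tok]

theorem pre_iff (ts : List (ℕ × ℤ)) :
    ETR (bitEncode ts) = true ↔ ETR (bitEncode (pre ts)) = true := by
  cases h : wf ts
  · have e : pre ts = formulaCode (.lt (.const 0) (.const 0)) := by
      simp [pre, h, formulaCode, termCode]
    rw [e, formulaCode_sat, etr_enc]
    refine iff_of_false ?_ (by simp [Holds])
    rintro ⟨φ, hφ, -⟩
    rw [(wf_iff ts).2 ⟨φ, hφ⟩] at h
    exact absurd h (by simp)
  · obtain ⟨φ, rfl⟩ := (wf_iff ts).1 h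
    have e : pre (formulaCode φ) = formulaCode (exF φ) := by simp [pre, h, code_exF]
    simp only [e, formulaCode_sat, holds_exF]

theorem pre_PT : PT pre := by
  have : PT tok := by unfold tok bitZ sgnZ; fun_prop
  unfold pre; fun_prop

theorem pre_small (ts : List (ℕ × ℤ)) : ∀ t ∈ pre ts, t.1 = 1 → t.2.natAbs ≤ 2 := by
  intro t ht h1
  cases h : wf ts
  · simp only [pre, h, cond_false, List.mem_cons, List.not_mem_nil, or_false] at ht
    rcases ht with rfl | rfl | rfl <;> simp
  · simp only [pre, h, cond_true, List.mem_flatMap, tok] at ht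
    obtain ⟨s, -, hs⟩ := ht
    split_ifs at hs with h2
    · simp only [List.mem_append, List.mem_cons, List.mem_flatMap, List.not_mem_nil,
        or_false] at hs
      rcases hs with (rfl | ⟨b, -, rfl | rfl | rfl | rfl⟩) | rfl | rfl
      · simp
      · simp
      · simp
      · cases b <;> simp [bitZ]
      · simp
      · simp only [sgnZ]; split_ifs <;> simp
      · simp
    · rw [List.mem_singleton.1 hs] at h1
      exact absurd h1 h2

/-- All coefficients are small. -/
def Sml (E : List QF) : Prop := ∀ q ∈ E, ∀ t ∈ q, t.1.natAbs ≤ 2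

theorem tmpl_sml {t : ℕ × ℤ} (h : t.1 = 1 → t.2.natAbs ≤ 2) (b x l r : ℕ) :
    Sml (tmpl t b x l r) := by
  unfold tmpl Sml
  split_ifs <;> simp only [List.forall_mem_cons, List.not_mem_nil, IsEmpty.forall_iff,
    implies_true, and_true] <;> omega

theorem eRun_sml (ix : ℕ × ℤ → ℕ) (m : List (ℕ × ℤ)) (hm : ∀ t ∈ m, t.1 = 1 → t.2.natAbs ≤ 2) :
    Sml (eRun ix m).2 := by
  induction m using List.reverseRecOn with
  | nil => simp [eRun, Sml]
  | append_singleton m t ih =>
    rw [eRun_concat]
    intro q hq
    rcases List.mem_append.1 hq with hq | hq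
    · exact ih (fun s hs => hm s (List.mem_append_left _ hs)) q hq
    · exact tmpl_sml (hm t (by simp)) _ _ _ _ q hq

theorem system_sml {ts : List (ℕ × ℤ)} (h : ∀ t ∈ ts, t.1 = 1 → t.2.natAbs ≤ 2) :
    Sml (system ts) := by
  intro q hq
  simp only [system, List.mem_cons] at hq
  rcases hq with rfl | rfl | hq
  · cases wf ts <;> simp
  · simp
  · exact eRun_sml _ _ h q hq

theorem hom_sml {E : List QF} (h : Sml E) (n K : ℕ) : Sml (hom n K E) := by
  intro q hq
  simp only [hom, List.mem_cons, List.mem_append, List.mem_map, List.mem_range] at hq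
  rcases hq with rfl | rfl | rfl | ⟨j, hj, rfl⟩ | hq
  · simp
  · simp
  · simp
  · simp
  · exact h q hq

theorem anti_sml {E : List QF} (h : Sml E) (n : ℕ) : Sml (anti n ++ E) := by
  intro q hq
  simp only [anti, List.mem_append, List.mem_flatMap, List.mem_map, List.mem_range] at hq
  rcases hq with ⟨i, hi, j, hj, rfl⟩ | hq
  · simp
  · exact h q hq

theorem natAbs_sum_le {α : Type} (l : List α) (f : α → ℤ) {B : ℕ}
    (h : ∀ a ∈ l, (f a).natAbs ≤ B) : (l.map f).sum.natAbs ≤ l.length * B := by
  induction l with
  | nil => simp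
  | cons a l ih =>
    have h1 := h a List.mem_cons_self
    have h2 := ih (fun b hb => h b (List.mem_cons_of_mem _ hb))
    have h3 := Int.natAbs_add_le (f a) (l.map f).sum
    simp only [List.map_cons, List.sum_cons, List.length_cons, add_mul]
    omega

theorem rsum_le {E : List QF} (h : Sml E) (n : ℕ) (p : ℕ × ℕ) :
    rsum n E p ≤ n * n * (sz E * (sz E * 2 * (sz E * 2))) := by
  have h1 : ∀ q ∈ E, ∀ i j, (co q i j).natAbs ≤ sz E * 2 := by
    intro q hq i j
    refine (natAbs_sum_le q _ (B := 2) (fun t ht => ?_)).trans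
      (Nat.mul_le_mul_right _ ((length_le_sz q).trans (sz_le_of_mem hq)))
    split_ifs
    · exact h q hq t ht
    · simp
  have h2 : ∀ i j a b, (gram E i j a b).natAbs ≤ sz E * (sz E * 2 * (sz E * 2)) := by
    intro i j a b
    refine (natAbs_sum_le E _ (fun q hq => ?_)).trans (Nat.mul_le_mul_right _ (length_le_sz E))
    rw [Int.natAbs_mul]
    exact Nat.mul_le_mul (h1 q hq i j) (h1 q hq a b)
  have h3 := List.sum_le_card_nsmul ((pairs n).map fun q => (gram E p.1 p.2 q.1 q.2).natAbs) _
    (fun x hx => by
      obtain ⟨q, -, rfl⟩ := List.mem_map.1 hx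
      exact h2 _ _ _ _)
  simpa [pairs_eq, rsum] using h3

end Pool.Agent.Lib.MP_acf5a6_lc.Hy
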