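import Pool.Agent.Lib.MP_acf5a6_lc.Hy.Defs
import Pool.Agent.Lib.MP_acf5a6_lc.Hy.Main
import Pool.Agent.Lib.MP_acf5a6_lc.Hy.Had
import Pool.Agent.Lib.MP_acf5a6_lc.Hy.Small

/-!
The polynomial-time reduction from ETR to eigenvalues and singular values of hypergraphs.
-/

set_option autoImplicit false
set_option linter.unusedSectionVars false

namespace Pool.Agent.Lib.MP_acf5a6_lc.Hy

open Finset N487b59b3

section bridge

variable {d : ℕ} {V : Type} [Fintype V]

theorem ws_of_sv (e : Fin d ≃ V) {T : Fin d → Fin d → Fin d → ℚ} {A : V → V → V → ℝ}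
    (hA : ∀ i j k, (T i j k : ℝ) = A (e i) (e j) (e k)) {σ : ℝ} (h : IsSingularValue T σ) :
    ∃ x y z, dot x x = 1 ∧ WS A σ x y z := by
  obtain ⟨X, Y, Z, hX, -, -, h1, h2, h3⟩ := h
  refine ⟨fun v => X (e.symm v), fun v => Y (e.symm v), fun v => Z (e.symm v), ?_,
    fun a => ?_, fun a => ?_, fun a => ?_⟩
  · rw [dot_self, ← e.sum_comp]; simpa using hX
  · rw [tri_dot1, ← dot_smul]
    refine congrArg _ (funext fun u => ?_)
    obtain ⟨i, rfl⟩ := e.surjective u
    simpa [← e.sum_comp, ← hA] using h1 i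
  · rw [tri_dot2, ← dot_smul]
    refine congrArg _ (funext fun u => ?_)
    obtain ⟨i, rfl⟩ := e.surjective u
    simpa [← e.sum_comp, ← hA] using h2 i
  · rw [tri_dot3, ← dot_smul]
    refine congrArg _ (funext fun u => ?_)
    obtain ⟨i, rfl⟩ := e.surjective u
    simpa [← e.sum_comp, ← hA] using h3 i

theorem eig_of (e : Fin d ≃ V) {T : Fin d → Fin d → Fin d → ℚ} {A : V → V → V → ℝ}
    (hA : ∀ i j k, (T i j k : ℝ) = A (e i) (e j) (e k)) {σ : ℝ} {u : V → ℝ} (hu : dot u u = 1)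
    (h : ∀ a, tri A a u u = σ * dot a u) : IsEigenvalue T σ := by
  classical
  refine ⟨fun i => u (e i), ?_, fun i => ?_⟩
  · rw [dot_self, ← e.sum_comp] at hu; exact hu
  · have := h (fun v => if v = e i then 1 else 0)
    rw [tri_dot1] at this
    simp only [dot, ite_mul, one_mul, zero_mul, sum_ite_eq', mem_univ, if_true] at this
    simpa [← e.sum_comp, ← hA] using this

theorem exists_equiv {α : Type} (vs : List α) (hnd : vs.Nodup) (code : V → α)
    (hinj : Function.Injective code) (hmem : ∀ a, a ∈ vs ↔ ∃ v, code v = a) :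
    ∃ e : Fin vs.length ≃ V, ∀ i, code (e i) = vs[i.1] := by
  choose f hf using fun i : Fin vs.length => (hmem vs[i.1]).1 (List.getElem_mem _)
  refine ⟨Equiv.ofBijective f ⟨fun i j h => ?_, fun v => ?_⟩, hf⟩
  · have := hf i
    rw [h, hf j] at this
    exact Fin.ext ((List.Nodup.getElem_inj_iff hnd).1 this).symm
  · obtain ⟨i, hi, h⟩ := List.getElem_of_mem ((hmem _).2 ⟨v, rfl⟩)
    exact ⟨⟨i, hi⟩, hinj ((hf _).trans h)⟩

end bridge

/-- The sign of a bit. -/
def sgz (b : Bool) : ℤ := cond b (-1) 1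

/-- Codes of blown-up indices. -/
abbrev Jx : Type := Ix × ℕ × Bool × Bool

/-- The sign pattern on codes. -/
def patZ (n D : ℕ) (E : List QF) (p q r : Jx) : ℤ :=
  if t0 n D E p.1 q.1 r.1 = 0 then sgz (had p.2.1 q.2.1) * sgz p.2.2.2 * sgz q.2.2.2 * sgz r.2.2.2
  else t0 n D E p.1 q.1 r.1 * sgz p.2.2.1 * sgz q.2.2.1 * sgz r.2.2.1

/-- The ordered edge indicator on codes. -/
def cutZ (n D : ℕ) (E : List QF) (u v w : ℕ × Jx) : ℤ :=
  if (u.1, v.1, w.1) = (0, 1, 2) then if patZ n D E u.2 v.2 w.2 = 1 then 1 else 0 else 0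

/-- The adjacency tensor on codes. -/
def symZ (n D : ℕ) (E : List QF) (u v w : ℕ × Jx) : ℤ :=
  cutZ n D E u v w + cutZ n D E u w v + cutZ n D E v u w + cutZ n D E v w u + cutZ n D E w u v +
    cutZ n D E w v u

/-- The list of vertices. -/
def verts (n D N : ℕ) : List (ℕ × Jx) :=
  List.range 3 ×ˢ (((List.range n ×ˢ List.range n) ×ˢ ((List.range n ×ˢ List.range n) ×ˢ
    List.range D)) ×ˢ (List.range N ×ˢ ([true, false] ×ˢ [true, false])))

/-- The code of a vertex. -/
def code {n D N : ℕ} (u : Vx (IF n D) (Fin N)) : ℕ × Jx := (u.1, cI u.2.1, u.2.2.1, u.2.2.2)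

theorem code_inj {n D N : ℕ} : Function.Injective (code (n := n) (D := D) (N := N)) := by
  intro u v h
  simpa [code, cI, cP, Prod.ext_iff, Fin.ext_iff] using h

theorem verts_nodup (n D N : ℕ) : (verts n D N).Nodup :=
  List.nodup_range.product (((List.nodup_range.product List.nodup_range).product
    ((List.nodup_range.product List.nodup_range).product List.nodup_range)).product
    (List.nodup_range.product (by decide)))

theorem verts_mem (n D N : ℕ) (a : ℕ × Jx) :
    a ∈ verts n D N ↔ ∃ v : Vx (IF n D) (Fin N), code v = a := by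
  obtain ⟨s, ⟨⟨i, j⟩, ⟨k, l⟩, t⟩, g, b, c⟩ := a
  simp only [verts, List.mem_product, List.mem_range]
  constructor
  · rintro ⟨hs, ⟨⟨hi, hj⟩, ⟨hk, hl⟩, ht⟩, hg, -⟩
    exact ⟨(⟨s, hs⟩, ((⟨i, hi⟩, ⟨j, hj⟩), (⟨k, hk⟩, ⟨l, hl⟩), ⟨t, ht⟩), ⟨g, hg⟩, b, c), rfl⟩
  · rintro ⟨⟨s, ⟨⟨i, j⟩, ⟨k, l⟩, t⟩, g, b', c'⟩, h⟩
    simp only [code, cI, cP, Prod.mk.injEq] at h
    obtain ⟨rfl, ⟨⟨rfl, rfl⟩, ⟨rfl, rfl⟩, rfl⟩, rfl, rfl, rfl⟩ := h
    exact ⟨s.2, ⟨⟨i.2, j.2⟩, ⟨k.2, l.2⟩, t.2⟩, g.2, by cases b' <;> simp, by cases c' <;> simp⟩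

theorem sgz_cast (b : Bool) : (sgz b : ℝ) = sg b := by cases b <;> simp [sgz, sg]

theorem patZ_mem (n D : ℕ) (E : List QF) (p q r : Jx) :
    patZ n D E p q r = 1 ∨ patZ n D E p q r = -1 := by
  have h : ∀ (a : ℤ) (b : Bool), a = 1 ∨ a = -1 → a * sgz b = 1 ∨ a * sgz b = -1 := by
    rintro a b (rfl | rfl) <;> cases b <;> simp [sgz]
  unfold patZ
  split_ifs with h0
  · exact h _ _ (h _ _ (h _ _ (by cases had p.2.1 q.2.1 <;> simp [sgz])))
  · exact h _ _ (h _ _ (h _ _ ((t0_mem n D E _ _ _).resolve_left h0)))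

theorem cutZ_cast {n D N : ℕ} (E : List QF) (u v w : Vx (IF n D) (Fin N)) :
    (cutZ n D E (code u) (code v) (code w) : ℝ) =
      cut (fun p q r => (1 + pat (tR n D E) (fun a b : Fin N => sg (had a b)) p q r) / 2)
        u v w := by
  have e : pat (tR n D E) (fun a b : Fin N => sg (had a b)) u.2 v.2 w.2 =
      patZ n D E (code u).2 (code v).2 (code w).2 := by
    simp only [pat, patZ, tR, code, Int.cast_eq_zero, Int.cast_ite, Int.cast_mul, sgz_cast]
  simp only [cut, cutZ, e]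
  have := patZ_mem n D E (code u).2 (code v).2 (code w).2
  by_cases h : ((u.1 : ℕ), (v.1 : ℕ), (w.1 : ℕ)) = (0, 1, 2)
  · rw [if_pos h, if_pos (show ((code u).1, (code v).1, (code w).1) = (0, 1, 2) from h)]
    rcases this with h1 | h1 <;> rw [h1] <;> norm_num
  · rw [if_neg h, if_neg (show ¬ ((code u).1, (code v).1, (code w).1) = (0, 1, 2) from h)]
    norm_num

theorem symZ_cast {n D N : ℕ} (E : List QF) (u v w : Vx (IF n D) (Fin N)) :
    (symZ n D E (code u) (code v) (code w) : ℝ) =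
      blow (tR n D E) (fun a b : Fin N => sg (had a b)) u v w := by
  simp only [symZ, blow, sym, Int.cast_add, cutZ_cast]

theorem cutZ_cases (n D : ℕ) (E : List QF) (u v w : ℕ × Jx) :
    cutZ n D E u v w = 0 ∨ cutZ n D E u v w = 1 ∧ u.1 = 0 ∧ v.1 = 1 ∧ w.1 = 2 := by
  unfold cutZ
  split_ifs with h <;> simp_all

/-- The adjacency tensor as an array. -/
def arr (n D N : ℕ) (E : List QF) (i j k : Fin (verts n D N).length) : ℚ :=
  (symZ n D E (verts n D N)[i.1] (verts n D N)[j.1] (verts n D N)[k.1] : ℤ)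

theorem arr_hyp (n D N : ℕ) (E : List QF) : IsHypergraph (arr n D N E) := by
  refine ⟨fun i j k => ?_, fun i j k => ?_, fun i j k => ?_,
    fun i => ⟨((verts n D N)[i.1]).1 % 3, Nat.mod_lt _ (by norm_num)⟩, fun i j k => ?_⟩
  · unfold arr
    generalize (verts n D N)[i.1] = u
    generalize (verts n D N)[j.1] = v
    generalize (verts n D N)[k.1] = w
    have := cutZ_cases n D E u v w
    have := cutZ_cases n D E u w v
    have := cutZ_cases n D E v u w
    have := cutZ_cases n D E v w u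
    have := cutZ_cases n D E w u v
    have := cutZ_cases n D E w v u
    rw [Int.cast_eq_zero, Int.cast_eq_one, symZ]
    omega
  · simp only [arr, symZ]; push_cast; ring
  · simp only [arr, symZ]; push_cast; ring
  · simp only [arr, Ne, Fin.ext_iff, Int.cast_eq_zero, symZ]
    generalize (verts n D N)[i.1] = u
    generalize (verts n D N)[j.1] = v
    generalize (verts n D N)[k.1] = w
    have := cutZ_cases n D E u v w
    have := cutZ_cases n D E u w v
    have := cutZ_cases n D E v u w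
    have := cutZ_cases n D E v w u
    have := cutZ_cases n D E w u v
    have := cutZ_cases n D E w v u
    omega

theorem arr_iff {n s K : ℕ} {E : List QF} (hn : 0 < n) (hs : 0 < s) (hE : Bdd n E)
    (hR : ∀ p, rsum n E p ≤ s) {D : ℕ} (hD : D = 3 * (s * s))
    (hK : 3 * (n * n * (n * n * D) * (n * n * (n * n * D))) < 2 ^ K) :
    (Bil n E → IsEigenvalue (arr n D (2 ^ K * 2 ^ K) E) ((8 * (2 ^ K * (2 ^ K * 2 ^ K)) * s : ℕ))) ∧
    (IsSingularValue (arr n D (2 ^ K * 2 ^ K) E) ((8 * (2 ^ K * (2 ^ K * 2 ^ K)) * s : ℕ)) →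
      Bil n E) := by
  obtain ⟨e, he⟩ := exists_equiv _ (verts_nodup n D (2 ^ K * 2 ^ K)) _ code_inj
    (verts_mem n D (2 ^ K * 2 ^ K))
  have hA : ∀ i j k, (arr n D (2 ^ K * 2 ^ K) E i j k : ℝ) =
      blow (tR n D E) (fun a b : Fin (2 ^ K * 2 ^ K) => sg (had a b)) (e i) (e j) (e k) := by
    intro i j k
    rw [← symZ_cast, he, he, he, arr, Rat.cast_intCast]
  have hD0 : 0 < D := by rw [hD]; positivity
  have hR' : ∀ p, 2 * rsum n E p ≤ D := fun p => by have := hR p; nlinarith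
  have hs' : (0 : ℝ) < s := by exact_mod_cast hs
  have hσ : (√3 * s) ^ 2 = (D : ℝ) := by
    rw [mul_pow, Real.sq_sqrt (by norm_num), hD]; push_cast; ring
  have hσ0 : 0 < √3 * (s : ℝ) := by positivity
  have hb := tR_le hn hD0 hE hR' hσ0 hσ
  have hL : (0 : ℝ) < 2 ^ K := by positivity
  have hG : (Fintype.card (Fin (2 ^ K * 2 ^ K)) : ℝ) = (2 ^ K) ^ 2 := by simp [sq]
  have hl : ((8 * (2 ^ K * (2 ^ K * 2 ^ K)) * s : ℕ) : ℝ) = 8 * (2 ^ K) ^ 3 * s := by
    push_cast; ring
  rw [hl, ← tR_iff hn hD0 hE hR' hσ0 hσ]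
  constructor
  · rintro ⟨x, y, z, hx, hy, hz, h⟩
    obtain ⟨u, hu, h'⟩ := blow_complete (fun a b : Fin (2 ^ K * 2 ^ K) => sg (had a b)) hL hG hb
      hx hy hz h
    exact eig_of e hA hu h'
  · intro h
    obtain ⟨x, y, z, hx, H⟩ := ws_of_sv e hA h
    have hc : Fintype.card (IF n D) = n * n * (n * n * D) := by simp
    have hm : D ≤ n * n * (n * n * D) :=
      (Nat.le_mul_of_pos_left _ (by positivity)).trans (Nat.le_mul_of_pos_left _ (by positivity))
    refine blow_sound hs' hL hG (fun x => ?_) ?_ ?_ hb hx H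
    · rw [had_fin (K := K + K) (by rw [pow_add]) x]
      push_cast; rw [sq]
    · rw [hc, sq]
      exact_mod_cast hK.trans_le (Nat.le_mul_of_pos_right _ hs)
    · rw [hc]
      have h1 : 4 * s ^ 2 < D ^ 3 := by
        rw [hD]
        nlinarith [Nat.one_le_pow 4 s hs, Nat.one_le_pow 2 s hs,
          Nat.mul_le_mul_left (s ^ 2) (Nat.one_le_pow 4 s hs)]
      exact_mod_cast h1.trans_le (Nat.pow_le_pow_left hm 3)

/-- The instance built from a bilinear system. -/
def inst2 (n D N σ : ℕ) (E : List QF) : List (List (List ℚ)) × ℚ :=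
  ((verts n D N).map fun u => (verts n D N).map fun v => (verts n D N).map fun w =>
    ((symZ n D E u v w : ℤ) : ℚ), (((σ : ℕ) : ℤ) : ℚ))

theorem inst2_eq (n D N σ : ℕ) (E : List QF) :
    inst2 n D N σ E = (listOf (arr n D N E), (σ : ℚ)) := by
  simp only [inst2, listOf, arr, Int.cast_natCast]
  rw [← List.ofFn_getElem_eq_map]
  refine congrArg (·, (σ : ℚ)) (congrArg List.ofFn (funext fun i => ?_))
  rw [← List.ofFn_getElem_eq_map]
  refine congrArg List.ofFn (funext fun j => ?_)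
  rw [← List.ofFn_getElem_eq_map]

section pt

variable {α β γ : Type} [N487b59b3 α] [N487b59b3 β] [N487b59b3 γ]

@[fun_prop] theorem product_PT {l : α → List β} {m : α → List γ} (hl : PT l) (hm : PT m) :
    PT (fun a => l a ×ˢ m a) := by
  have : PT (fun a => (l a).flatMap fun x => (m a).map fun y => (x, y)) := by fun_prop
  exact this

theorem pow_PT {c : α → Un} (hc : PT c) : PT (fun a => Un.mk (2 ^ sz (c a).n)) := by
  have key : ∀ i, (fun u : Un => u.add u)^[i] ⟨1⟩ = ⟨2 ^ i⟩ := by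
    intro i
    induction i with
    | zero => rfl
    | succ i ih => rw [Function.iterate_succ_apply', ih, Un.add, pow_succ, mul_two]
  have h1 := PT.iter (g := fun u : Un => u.add u) (h := fun _ : α => ⟨1⟩) (c := fun a => (c a).n)
    (by fun_prop) (PT.const _) (by fun_prop)
    (((PB.const 2).mul (PB.of_PT hc)).add (PB.const 1)) (fun a i hi => by
      rw [key, sz_un, sz_un]
      rw [sz_nat] at hi
      rcases i with _ | i
      · simp
      · have := Nat.lt_size.1 (show i < (c a).n.size from hi)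
        show 2 ^ (i + 1) ≤ 2 * (c a).n + 1
        rw [pow_succ]; omega)
  exact h1.of_eq (fun a => key _)

@[fun_prop] theorem rsum_PT {n : α → Un} {E : α → List QF} {p : α → ℕ × ℕ} (hn : PT n)
    (hE : PT E) (hp : PT p) : PT (fun a => rsum (n a).n (E a) (p a)) := by
  unfold rsum; fun_prop

@[fun_prop] theorem mult_PT {n : α → Un} {D : α → ℕ} {E : α → List QF} {p q : α → ℕ × ℕ}
    (hn : PT n) (hD : PT D) (hE : PT E) (hp : PT p) (hq : PT q) :
    PT (fun a => mult (n a).n (D a) (E a) (p a) (q a)) := by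
  unfold mult; fun_prop

@[fun_prop] theorem sgn_PT {E : α → List QF} {p q : α → ℕ × ℕ} (hE : PT E) (hp : PT p)
    (hq : PT q) : PT (fun a => sgn (E a) (p a) (q a)) := by
  unfold sgn; fun_prop

@[fun_prop] theorem wrow_PT {n : α → Un} {D : α → ℕ} {E : α → List QF} {g : α → Ix}
    {p : α → ℕ × ℕ} (hn : PT n) (hD : PT D) (hE : PT E) (hg : PT g) (hp : PT p) :
    PT (fun a => wrow (n a).n (D a) (E a) (g a) (p a)) := by
  unfold wrow; fun_prop

@[fun_prop] theorem t0_PT {n : α → Un} {D : α → ℕ} {E : α → List QF} {u v w : α → Ix}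
    (hn : PT n) (hD : PT D) (hE : PT E) (hu : PT u) (hv : PT v) (hw : PT w) :
    PT (fun a => t0 (n a).n (D a) (E a) (u a) (v a) (w a)) := by
  unfold t0; fun_prop

@[fun_prop] theorem sgz_PT {b : α → Bool} (hb : PT b) : PT (fun a => sgz (b a)) := by
  unfold sgz; fun_prop

@[fun_prop] theorem patZ_PT {n : α → Un} {D : α → ℕ} {E : α → List QF} {u v w : α → Jx}
    (hn : PT n) (hD : PT D) (hE : PT E) (hu : PT u) (hv : PT v) (hw : PT w) :
    PT (fun a => patZ (n a).n (D a) (E a) (u a) (v a) (w a)) := by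
  unfold patZ; fun_prop

@[fun_prop] theorem cutZ_PT {n : α → Un} {D : α → ℕ} {E : α → List QF} {u v w : α → ℕ × Jx}
    (hn : PT n) (hD : PT D) (hE : PT E) (hu : PT u) (hv : PT v) (hw : PT w) :
    PT (fun a => cutZ (n a).n (D a) (E a) (u a) (v a) (w a)) := by
  unfold cutZ; fun_prop

@[fun_prop] theorem symZ_PT {n : α → Un} {D : α → ℕ} {E : α → List QF} {u v w : α → ℕ × Jx}
    (hn : PT n) (hD : PT D) (hE : PT E) (hu : PT u) (hv : PT v) (hw : PT w) :
    PT (fun a => symZ (n a).n (D a) (E a) (u a) (v a) (w a)) := by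
  unfold symZ; fun_prop

@[fun_prop] theorem verts_PT {n D N : α → Un} (hn : PT n) (hD : PT D) (hN : PT N) :
    PT (fun a => verts (n a).n (D a).n (N a).n) := by
  unfold verts; fun_prop

theorem inst2_PT {n D N : α → Un} {σ : α → ℕ} {E : α → List QF} (hn : PT n) (hD : PT D)
    (hN : PT N) (hσ : PT σ) (hE : PT E) :
    PT (fun a => inst2 (n a).n (D a).n (N a).n (σ a) (E a)) := by
  unfold inst2; fun_prop

end pt

/-- The bilinear system. -/
def sysE (ts : List (ℕ × ℤ)) : List QF :=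
  anti (redM ts).n ++ hom (redN ts).n (redK ts).n (system ts)

/-- The scale. -/
def parS (ts : List (ℕ × ℤ)) : Un :=
  (((redM ts).mul (redM ts)).mul ((usz (sysE ts)).mul
    (((usz (sysE ts)).mul ⟨2⟩).mul ((usz (sysE ts)).mul ⟨2⟩)))).add ⟨1⟩

/-- The number of copies of each row. -/
def parD (ts : List (ℕ × ℤ)) : Un := (Un.mk 3).mul ((parS ts).mul (parS ts))

/-- The number of indices. -/
def parI (ts : List (ℕ × ℤ)) : Un :=
  ((redM ts).mul (redM ts)).mul (((redM ts).mul (redM ts)).mul (parD ts))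

/-- The square root of the order of the Hadamard matrix. -/
def parL (ts : List (ℕ × ℤ)) : Un := ⟨2 ^ sz ((Un.mk 3).mul ((parI ts).mul (parI ts))).n⟩

/-- The reduction after the preprocessing. -/
def red2 (ts : List (ℕ × ℤ)) : List (List (List ℚ)) × ℚ :=
  inst2 (redM ts).n (parD ts).n ((parL ts).mul (parL ts)).n
    (8 * ((parL ts).n * ((parL ts).n * (parL ts).n)) * (parS ts).n) (sysE ts)

theorem red2_PT : PT red2 := by
  have h0 := PT.system'
  have h1 : PT redN := by unfold redN; fun_prop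
  have h2 : PT redK := by unfold redK; fun_prop
  have h3 : PT redM := by unfold redM; fun_prop
  have h4 : PT sysE := PT.append (PT.anti' h3) (PT.hom' h1 h2 h0)
  have h5 : PT parS := by unfold parS; fun_prop
  have h6 : PT parD := by unfold parD; fun_prop
  have h7 : PT parI := by unfold parI; fun_prop
  have h8 : PT parL := pow_PT (by fun_prop)
  have h9 : PT (fun ts => (parL ts).mul (parL ts)) := by fun_prop
  have h10 : PT (fun ts => 8 * ((parL ts).n * ((parL ts).n * (parL ts).n)) * (parS ts).n) :=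
    PT.natMul (PT.natMul (PT.const 8) (PT.natMul (PT.unN h8) (PT.natMul (PT.unN h8) (PT.unN h8))))
      (PT.unN h5)
  unfold red2
  exact inst2_PT h3 h6 h9 h10 h4

theorem red2_spec (ts : List (ℕ × ℤ)) :
    (ETR (bitEncode ts) = true → HEV (bitEncode (red2 (pre ts))) = true) ∧
    (TSV (bitEncode (red2 (pre ts))) = true → ETR (bitEncode ts) = true) := by
  have hS : Sml (sysE (pre ts)) := anti_sml (hom_sml (system_sml (pre_small ts)) _ _) _
  rw [pre_iff]
  generalize pre ts = us at hS ⊢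
  have hE : Bdd (redM us).n (sysE us) := anti_bdd (hom_bdd (system_bdd us))
  have hs : 0 < (parS us).n := Nat.succ_pos _
  obtain ⟨k1, k2⟩ := arr_iff (n := (redM us).n) (s := (parS us).n) (D := (parD us).n)
    (K := sz ((Un.mk 3).mul ((parI us).mul (parI us))).n) (Nat.succ_pos _) hs hE
    (fun p => (rsum_le hS _ p).trans (Nat.le_succ _)) rfl (lt_two_pow_sz _)
  have e : ETR (bitEncode us) = true ↔ Bil (redM us).n (sysE us) := by
    rw [red_iff, ← inst_iff hE]; rfl
  rw [e, red2, inst2_eq]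
  constructor
  · intro h
    simp only [HEV, decide_eq_true_eq]
    exact ⟨_, _, _, rfl, arr_hyp _ _ _ _, by simp only [parL]; positivity, k1 h⟩
  · intro h
    refine k2 ?_
    have := ((tsv_enc _ _).1 h).2
    rwa [Rat.cast_natCast] at this

theorem etr_le_sandwich (L : N68a2faeb.DecisionProblem) (h1 : ∀ s, HEV s = true → L s = true)
    (h2 : ∀ s, L s = true → TSV s = true) : N793a5b8e.ManyOneReducible ETR L := by
  refine manyOne_of_PT (Chk.nat.prod Chk.int).list (PT.comp red2_PT pre_PT) (red2 (pre [])) ?_ ?_ ?_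
  · rw [Bool.eq_false_iff]
    intro h
    obtain ⟨φ, hφ, -⟩ := (etr_enc _).1 ((red2_spec []).2 (h2 _ h))
    have := (wf_iff []).2 ⟨φ, hφ⟩
    simp [wf] at this
  · intro s hs
    simp only [ETR, decide_eq_true_eq] at hs
    obtain ⟨φ, h, -⟩ := hs
    exact ⟨_, h.symm⟩
  · intro ts
    exact Bool.eq_iff_iff.2 ⟨fun h => h1 _ ((red2_spec ts).1 h), fun h => (red2_spec ts).2 (h2 _ h)⟩

theorem hev_sub_tsv (s : List Bool) (h : HEV s = true) : TSV s = true := by
  simp only [HEV, TSV, decide_eq_true_eq] at h ⊢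
  obtain ⟨d, T, σ, e, ⟨-, s1, s2, -⟩, hσ, x, hx, h⟩ := h
  rw [← Rat.cast_natCast] at h
  refine ⟨d, T, σ, e, by exact_mod_cast hσ, x, x, x, hx, hx, hx, h, fun j => ?_, fun k => ?_⟩
  · simp only [fun i k => s1 i j k]; exact h j
  · simp only [fun i j => (s2 i j k).trans (s1 i k j)]; exact h k

end Pool.Agent.Lib.MP_acf5a6_lc.Hy
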