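import Pool.Agent.Lib.MP_acf5a6_lc.Hy.Tri
import Pool.Agent.Lib.MP_acf5a6_lc.Backward

/-!
A tensor with entries `-1, 0, 1` whose norm detects the solvability of a bilinear system.
-/

set_option autoImplicit false

namespace Pool.Agent.Lib.MP_acf5a6_lc.Hy

open Finset

/-- The absolute row sum of the Gram matrix. -/
def rsum (n : ℕ) (E : List QF) (p : ℕ × ℕ) : ℕ :=
  ((pairs n).map fun q => (gram E p.1 p.2 q.1 q.2).natAbs).sum

/-- The number of rows attached to a pair of positions. -/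
def mult (n D : ℕ) (E : List QF) (p q : ℕ × ℕ) : ℕ :=
  if p = q then D - 2 * rsum n E p else (gram E p.1 p.2 q.1 q.2).natAbs

/-- The sign attached to a pair of positions. -/
def sgn (E : List QF) (p q : ℕ × ℕ) : ℤ :=
  if p = q then 0 else if 0 < (gram E p.1 p.2 q.1 q.2).toNat then 1 else -1

/-- Codes of indices. -/
abbrev Ix : Type := (ℕ × ℕ) × (ℕ × ℕ) × ℕ

/-- The entries of a row. -/
def wrow (n D : ℕ) (E : List QF) (γ : Ix) (p : ℕ × ℕ) : ℤ :=
  if γ.2.2 < mult n D E γ.1 γ.2.1 then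
    (if p = γ.1 then 1 else 0) - sgn E γ.1 γ.2.1 * (if p = γ.2.1 then 1 else 0) else 0

/-- The tensor with entries `-1, 0, 1`. -/
def t0 (n D : ℕ) (E : List QF) (α β γ : Ix) : ℤ :=
  if (α.1.2, α.2) = (0, (0, 0), 0) then
    if (β.1.2, β.2) = (0, (0, 0), 0) then wrow n D E γ (α.1.1, β.1.1) else 0 else 0

theorem t0_mem (n D : ℕ) (E : List QF) (α β γ : Ix) :
    t0 n D E α β γ = 0 ∨ t0 n D E α β γ = 1 ∨ t0 n D E α β γ = -1 := by
  unfold t0 wrow sgn
  split_ifs <;> simp_all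

/-- The index type. -/
abbrev IF (n D : ℕ) : Type := (Fin n × Fin n) × (Fin n × Fin n) × Fin D

/-- The code of a position. -/
def cP {n : ℕ} (p : Fin n × Fin n) : ℕ × ℕ := (p.1, p.2)

/-- The code of an index. -/
def cI {n D : ℕ} (α : IF n D) : Ix := (cP α.1, cP α.2.1, α.2.2)

theorem cP_inj {n : ℕ} {p q : Fin n × Fin n} : cP p = cP q ↔ p = q := by
  simp [cP, Prod.ext_iff, Fin.ext_iff]

theorem sum_cP (n : ℕ) (f : ℕ × ℕ → ℝ) :
    ∑ p : Fin n × Fin n, f (cP p) = ∑ p ∈ range n ×ˢ range n, f p := by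
  rw [Fintype.sum_prod_type, sum_product,
    ← Fin.sum_univ_eq_sum_range (fun a => ∑ b ∈ range n, f (a, b))]
  exact sum_congr rfl (fun a _ => Fin.sum_univ_eq_sum_range (fun b => f (a, b)) n)

theorem rsum_cast (n : ℕ) (E : List QF) (p : ℕ × ℕ) : (rsum n E p : ℝ) =
    ∑ q : Fin n × Fin n, |(gram E p.1 p.2 (cP q).1 (cP q).2 : ℝ)| := by
  rw [rsum, Nat.cast_list_sum, List.map_map, sum_map_pairs, Fintype.sum_prod_type]
  simp [cP]

theorem gram_symm (E : List QF) (i j a b : ℕ) : gram E i j a b = gram E a b i j := by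
  simp only [gram, mul_comm]

theorem term_eq {n D : ℕ} {E : List QF} (hR : ∀ p, 2 * rsum n E p ≤ D) (w : ℕ × ℕ → ℝ)
    (p q : ℕ × ℕ) : (mult n D E p q : ℝ) * (w p - sgn E p q * w q) ^ 2 =
      |(gram E p.1 p.2 q.1 q.2 : ℝ)| * w p ^ 2 + |(gram E q.1 q.2 p.1 p.2 : ℝ)| * w q ^ 2 -
        2 * (gram E p.1 p.2 q.1 q.2 * (w p * w q)) +
        if p = q then (D - 2 * rsum n E p) * w p ^ 2 else 0 := by
  rw [gram_symm E q.1 q.2]
  unfold mult sgn
  split_ifs with h1 h2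
  · subst h1
    have : (0 : ℝ) ≤ gram E p.1 p.2 p.1 p.2 := by
      rw [gram_cast]; exact sum_nonneg (fun _ _ => mul_self_nonneg _)
    rw [abs_of_nonneg this, Nat.cast_sub (hR p)]
    push_cast; ring
  · have : (0 : ℝ) ≤ gram E p.1 p.2 q.1 q.2 := by exact_mod_cast (by omega)
    rw [Nat.cast_natAbs, Int.cast_abs, abs_of_nonneg this]
    push_cast; ring
  · have : (gram E p.1 p.2 q.1 q.2 : ℝ) ≤ 0 := by exact_mod_cast (by omega)
    rw [Nat.cast_natAbs, Int.cast_abs, abs_of_nonpos this]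
    push_cast; ring

theorem mult_le {n D : ℕ} {E : List QF} (hR : ∀ p, 2 * rsum n E p ≤ D)
    (p q : Fin n × Fin n) : mult n D E (cP p) (cP q) ≤ D := by
  unfold mult
  split_ifs
  · omega
  · have h1 := single_le_sum (f := fun q : Fin n × Fin n =>
      |(gram E (cP p).1 (cP p).2 (cP q).1 (cP q).2 : ℝ)|) (fun _ _ => abs_nonneg _) (mem_univ q)
    rw [← rsum_cast, ← Int.cast_abs, ← Nat.cast_natAbs, Nat.cast_le] at h1
    have := hR (cP p)
    omega

/-- The value of a row at a rank-one point. -/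
noncomputable def lin (n D : ℕ) (E : List QF) (w : ℕ × ℕ → ℝ) (γ : IF n D) : ℝ :=
  ∑ p : Fin n × Fin n, (wrow n D E (cI γ) (cP p) : ℝ) * w (cP p)

theorem lin_sq {n D : ℕ} {E : List QF} (hR : ∀ p, 2 * rsum n E p ≤ D) (w : ℕ × ℕ → ℝ) :
    dot (lin n D E w) (lin n D E w) = D * ∑ p : Fin n × Fin n, w (cP p) ^ 2 -
      2 * ∑ r : Fin E.length, (∑ p : Fin n × Fin n,
        (co E[r.1] (cP p).1 (cP p).2 : ℝ) * w (cP p)) ^ 2 := by
  have e1 : ∀ γ : IF n D, lin n D E w γ ^ 2 = if (γ.2.2 : ℕ) < mult n D E (cP γ.1) (cP γ.2.1) then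
      (w (cP γ.1) - sgn E (cP γ.1) (cP γ.2.1) * w (cP γ.2.1)) ^ 2 else 0 := by
    intro γ
    simp only [lin, wrow, cI, cP_inj]
    split_ifs
    · simp [sub_mul, sum_sub_distrib, ite_mul]
    · simp
  have e2 : ∑ p : Fin n × Fin n, ∑ q : Fin n × Fin n,
      (gram E (cP p).1 (cP p).2 (cP q).1 (cP q).2 : ℝ) * (w (cP p) * w (cP q)) =
      ∑ r : Fin E.length, (∑ p : Fin n × Fin n,
        (co E[r.1] (cP p).1 (cP p).2 : ℝ) * w (cP p)) ^ 2 := by
    simp only [gram_cast, sum_mul, sq, mul_sum]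
    rw [sum_comm]
    conv_rhs => rw [sum_comm]
    refine sum_congr rfl (fun q _ => ?_)
    rw [sum_comm]
    exact sum_congr rfl (fun _ _ => sum_congr rfl (fun _ _ => by ring))
  rw [dot_self, Fintype.sum_prod_type]
  simp only [e1, Fintype.sum_prod_type (α₁ := Fin n × Fin n) (α₂ := Fin D)]
  simp only [fun p q : Fin n × Fin n => sum_pad (mult_le hR p q)
    (fun _ => (w (cP p) - sgn E (cP p) (cP q) * w (cP q)) ^ 2), sum_const, card_range,
    nsmul_eq_mul, term_eq hR, sum_add_distrib, sum_sub_distrib, cP_inj, sum_ite_eq, mem_univ,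
    if_true, ← mul_sum, e2]
  rw [sum_comm (f := fun p q : Fin n × Fin n =>
    |(gram E (cP q).1 (cP q).2 (cP p).1 (cP p).2 : ℝ)| * w (cP q) ^ 2)]
  simp only [← sum_mul, ← rsum_cast, sub_mul, sum_sub_distrib, ← mul_sum, mul_assoc]
  ring

/-- The active indices of the first two modes. -/
def emb {n D : ℕ} (hn : 0 < n) (hD : 0 < D) (i : Fin n) : IF n D :=
  ((i, ⟨0, hn⟩), (⟨0, hn⟩, ⟨0, hn⟩), ⟨0, hD⟩)

theorem sum_act {n D : ℕ} (hn : 0 < n) (hD : 0 < D) (f : IF n D → ℝ) :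
    ∑ α, (if ((cI α).1.2, (cI α).2) = (0, (0, 0), 0) then f α else 0) =
      ∑ i, f (emb hn hD i) := by
  refine (Fintype.sum_of_injective (emb hn hD) (fun i j h => congrArg (·.1.1) h) _ _
    (fun α hα => if_neg (fun h => hα ⟨α.1.1, ?_⟩)) (fun i => by simp [cI, cP, emb])).symm
  simp only [cI, cP, Prod.mk.injEq] at h
  simp only [emb, Prod.ext_iff, Fin.ext_iff, h, and_self]

/-- The real tensor. -/
def tR (n D : ℕ) (E : List QF) (α β γ : IF n D) : ℝ := (t0 n D E (cI α) (cI β) (cI γ) : ℝ)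

theorem tri_tR {n D : ℕ} (hn : 0 < n) (hD : 0 < D) (E : List QF) (x y z : IF n D → ℝ) :
    tri (tR n D E) x y z = dot z (lin n D E fun p =>
      ext (fun i => x (emb hn hD i)) p.1 * ext (fun i => y (emb hn hD i)) p.2) := by
  rw [tri_dot3]
  refine congrArg _ (funext fun γ => ?_)
  simp only [tR, t0, Int.cast_ite, Int.cast_zero, ite_mul, zero_mul, sum_ite_irrel,
    sum_const_zero, sum_act hn hD, lin, Fintype.sum_prod_type (α₁ := Fin n) (α₂ := Fin n), cP,
    ext_val, mul_assoc]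
  rfl

theorem emb_le {n D : ℕ} (hn : 0 < n) (hD : 0 < D) (x : IF n D → ℝ) :
    ∑ i ∈ range n, ext (fun i => x (emb hn hD i)) i ^ 2 ≤ dot x x := by
  rw [← Fin.sum_univ_eq_sum_range (fun i => ext (fun i => x (emb hn hD i)) i ^ 2), dot_self]
  simp only [ext_val]
  rw [← sum_act hn hD (fun α => x α ^ 2)]
  exact sum_le_sum (fun α _ => by split_ifs; exacts [le_rfl, sq_nonneg _])

theorem lin_ev {n D : ℕ} {E : List QF} (hE : Bdd n E) (hR : ∀ p, 2 * rsum n E p ≤ D)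
    (X Y : ℕ → ℝ) :
    dot (lin n D E fun p => X p.1 * Y p.2) (lin n D E fun p => X p.1 * Y p.2) =
      D * ((∑ i ∈ range n, X i ^ 2) * ∑ i ∈ range n, Y i ^ 2) -
        2 * ∑ r : Fin E.length, ev E[r.1] X Y ^ 2 := by
  rw [lin_sq hR, sum_cP n (fun p => (X p.1 * Y p.2) ^ 2), sum_mul_sum, sum_product]
  simp only [mul_pow]
  congr 2
  refine sum_congr rfl (fun r _ => ?_)
  rw [ev_eq_co (hE _ (List.getElem_mem _)),
    sum_cP n (fun p => (co E[r.1] p.1 p.2 : ℝ) * (X p.1 * Y p.2))]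

variable {n D : ℕ} {E : List QF} {σ : ℝ}

theorem tR_le (hn : 0 < n) (hD : 0 < D) (hE : Bdd n E) (hR : ∀ p, 2 * rsum n E p ≤ D)
    (hσ : 0 < σ) (hs : σ ^ 2 = D) (x y z : IF n D → ℝ) :
    tri (tR n D E) x y z ≤ σ * (nr x * nr y * nr z) := by
  rw [tri_tR hn hD]
  refine (dot_le _ _).trans ?_
  have hx := nr_nonneg x
  have hy := nr_nonneg y
  have h1 := mul_le_mul (emb_le hn hD x) (emb_le hn hD y) (by positivity) (dot_nonneg x)
  have h2 := mul_le_mul_of_nonneg_left h1 (sq_nonneg σ)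
  have h3 := (abs_le_of_sq_le_sq' (a := nr (lin n D E fun p =>
      ext (fun i => x (emb hn hD i)) p.1 * ext (fun i => y (emb hn hD i)) p.2))
      (b := σ * (nr x * nr y)) (by
    rw [nr_sq, lin_ev hE hR, mul_pow, mul_pow, nr_sq, nr_sq, ← hs]
    have : 0 ≤ ∑ r : Fin E.length, ev E[r.1] (ext fun i => x (emb hn hD i))
      (ext fun i => y (emb hn hD i)) ^ 2 := by positivity
    linarith) (by positivity)).2
  have := mul_le_mul_of_nonneg_left h3 (nr_nonneg z)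
  linarith

theorem tR_iff (hn : 0 < n) (hD : 0 < D) (hE : Bdd n E) (hR : ∀ p, 2 * rsum n E p ≤ D)
    (hσ : 0 < σ) (hs : σ ^ 2 = D) :
    (∃ x y z, dot x x = 1 ∧ dot y y = 1 ∧ dot z z = 1 ∧ tri (tR n D E) x y z = σ) ↔ Bil n E := by
  constructor
  · rintro ⟨x, y, z, hx, hy, hz, h⟩
    rw [tri_tR hn hD] at h
    have h1 := dot_sq_le z (lin n D E fun p =>
      ext (fun i => x (emb hn hD i)) p.1 * ext (fun i => y (emb hn hD i)) p.2)
    rw [h, hz, one_mul, lin_ev hE hR, ← hs] at h1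
    have h2 := emb_le hn hD x
    have h3 := emb_le hn hD y
    rw [hx] at h2
    rw [hy] at h3
    generalize ext (fun i => x (emb hn hD i)) = X at *
    generalize ext (fun i => y (emb hn hD i)) = Y at *
    have h4 : 0 ≤ ∑ r : Fin E.length, ev E[r.1] X Y ^ 2 := by positivity
    have h5 : 0 ≤ ∑ i ∈ range n, X i ^ 2 := by positivity
    have h6 : 0 ≤ ∑ i ∈ range n, Y i ^ 2 := by positivity
    have h7 : 0 < σ ^ 2 := by positivity
    have h8 : 1 ≤ (∑ i ∈ range n, X i ^ 2) * ∑ i ∈ range n, Y i ^ 2 :=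
      le_of_mul_le_mul_left (by linarith) h7
    have h9 : ∑ i ∈ range n, X i ^ 2 = 1 := le_antisymm h2 (by nlinarith)
    have h10 : ∑ i ∈ range n, Y i ^ 2 = 1 := le_antisymm h3 (by nlinarith)
    refine ⟨X, Y, h9, h10, fun q hq => ?_⟩
    obtain ⟨r, hr, rfl⟩ := List.getElem_of_mem hq
    rw [h9, h10] at h1
    have h11 : ∑ r : Fin E.length, ev E[r.1] X Y ^ 2 = 0 := by linarith
    rw [sum_eq_zero_iff_of_nonneg (fun _ _ => by positivity)] at h11
    exact pow_eq_zero_iff (by norm_num) |>.1 (h11 ⟨r, hr⟩ (mem_univ _))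
  · rintro ⟨X, Y, hX, hY, h⟩
    let pad : (ℕ → ℝ) → IF n D → ℝ := fun X α =>
      if ((cI α).1.2, (cI α).2) = (0, (0, 0), 0) then X α.1.1 else 0
    have e1 : ∀ X : ℕ → ℝ, dot (pad X) (pad X) = ∑ i ∈ range n, X i ^ 2 := by
      intro X
      rw [dot_self, ← Fin.sum_univ_eq_sum_range (fun i => X i ^ 2)]
      refine Eq.trans ?_ (sum_act hn hD (fun α => X α.1.1 ^ 2))
      exact sum_congr rfl (fun α _ => by simp only [pad]; split_ifs <;> simp)
    have e2 : (lin n D E fun p => ext (fun i => pad X (emb hn hD i)) p.1 *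
        ext (fun i => pad Y (emb hn hD i)) p.2) = lin n D E fun p => X p.1 * Y p.2 := by
      funext γ
      simp [lin, cP, pad, cI, emb]
    have e3 := lin_ev hE hR X Y
    rw [hX, hY, sum_eq_zero (fun r _ => by rw [h _ (List.getElem_mem _)]; norm_num), ← hs] at e3
    refine ⟨pad X, pad Y, σ⁻¹ • lin n D E fun p => X p.1 * Y p.2, by rw [e1, hX], by rw [e1, hY],
      ?_, ?_⟩
    · rw [dot_smul, smul_dot, e3]; field_simp; ring
    · rw [tri_tR hn hD, e2, smul_dot, e3]; field_simp; ring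

end Pool.Agent.Lib.MP_acf5a6_lc.Hy
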