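import Mathlib

/-!
Trilinear forms on finite index sets, tripartite symmetrisation, the permanent of order three.
-/

set_option autoImplicit false
set_option linter.unusedSectionVars false

namespace Pool.Agent.Lib.MP_acf5a6_lc.Hy

open Finset

section basic

variable {A B C : Type} [Fintype A] [Fintype B] [Fintype C]

/-- The trilinear form of an array. -/
def tri (T : A → B → C → ℝ) (x : A → ℝ) (y : B → ℝ) (z : C → ℝ) : ℝ :=
  ∑ i, ∑ j, ∑ k, T i j k * x i * y j * z k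

/-- The scalar product. -/
def dot (x y : A → ℝ) : ℝ := ∑ i, x i * y i

/-- The Euclidean norm. -/
noncomputable def nr (x : A → ℝ) : ℝ := √(dot x x)

theorem dot_self (x : A → ℝ) : dot x x = ∑ i, x i ^ 2 := by simp [dot, sq]

theorem dot_nonneg (x : A → ℝ) : 0 ≤ dot x x := by rw [dot_self]; positivity

theorem dot_comm (x y : A → ℝ) : dot x y = dot y x := by simp [dot, mul_comm]

theorem nr_nonneg (x : A → ℝ) : 0 ≤ nr x := Real.sqrt_nonneg _

theorem nr_sq (x : A → ℝ) : nr x ^ 2 = dot x x := Real.sq_sqrt (dot_nonneg x)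

theorem nr_one {x : A → ℝ} (h : dot x x = 1) : nr x = 1 := by rw [nr, h, Real.sqrt_one]

theorem dot_sq_le (x y : A → ℝ) : dot x y ^ 2 ≤ dot x x * dot y y := by
  rw [dot_self, dot_self]; exact sum_mul_sq_le_sq_mul_sq _ _ _

theorem dot_le (x y : A → ℝ) : dot x y ≤ nr x * nr y :=
  le_of_sq_le_sq' (mul_nonneg (nr_nonneg _) (nr_nonneg _))
    (by rw [mul_pow, nr_sq, nr_sq]; exact dot_sq_le x y)
  where le_of_sq_le_sq' {a b : ℝ} (hb : 0 ≤ b) (h : a ^ 2 ≤ b ^ 2) : a ≤ b :=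
    (abs_le_of_sq_le_sq' h hb).2

theorem eq_zero_of_dot {x : A → ℝ} (h : dot x x = 0) : x = 0 := by
  rw [dot_self, sum_eq_zero_iff_of_nonneg (fun _ _ => by positivity)] at h
  funext i
  exact pow_eq_zero_iff (by norm_num) |>.1 (h i (mem_univ i))

theorem dot_smul (c : ℝ) (x y : A → ℝ) : dot x (c • y) = c * dot x y := by
  simp only [dot, mul_sum, Pi.smul_apply, smul_eq_mul]
  exact sum_congr rfl (fun _ _ => by ring)

theorem smul_dot (c : ℝ) (x y : A → ℝ) : dot (c • x) y = c * dot x y := by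
  rw [dot_comm, dot_smul, dot_comm]

theorem tri_smul (T : A → B → C → ℝ) (a b c : ℝ) (x : A → ℝ) (y : B → ℝ) (z : C → ℝ) :
    tri T (a • x) (b • y) (c • z) = a * b * c * tri T x y z := by
  simp only [tri, mul_sum, Pi.smul_apply, smul_eq_mul]
  exact sum_congr rfl (fun _ _ => sum_congr rfl (fun _ _ => sum_congr rfl (fun _ _ => by ring)))

theorem tri_zero1 (T : A → B → C → ℝ) (y : B → ℝ) (z : C → ℝ) : tri T 0 y z = 0 := by
  simp [tri]

theorem tri_zero2 (T : A → B → C → ℝ) (x : A → ℝ) (z : C → ℝ) : tri T x 0 z = 0 := by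
  simp [tri]

theorem tri_zero3 (T : A → B → C → ℝ) (x : A → ℝ) (y : B → ℝ) : tri T x y 0 = 0 := by
  simp [tri]

theorem tri_swap12 (T : A → B → C → ℝ) (x : A → ℝ) (y : B → ℝ) (z : C → ℝ) :
    tri (fun j i k => T i j k) y x z = tri T x y z := by
  unfold tri
  rw [sum_comm]
  exact sum_congr rfl (fun _ _ => sum_congr rfl (fun _ _ => sum_congr rfl (fun _ _ => by ring)))

theorem tri_swap23 (T : A → B → C → ℝ) (x : A → ℝ) (y : B → ℝ) (z : C → ℝ) :
    tri (fun i k j => T i j k) x z y = tri T x y z := by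
  unfold tri
  refine sum_congr rfl (fun _ _ => ?_)
  rw [sum_comm]
  exact sum_congr rfl (fun _ _ => sum_congr rfl (fun _ _ => by ring))

theorem tri_add (S T : A → B → C → ℝ) (x : A → ℝ) (y : B → ℝ) (z : C → ℝ) :
    tri (fun i j k => S i j k + T i j k) x y z = tri S x y z + tri T x y z := by
  simp only [tri, add_mul, sum_add_distrib]

theorem tri_mul (c : ℝ) (T : A → B → C → ℝ) (x : A → ℝ) (y : B → ℝ) (z : C → ℝ) :
    tri (fun i j k => c * T i j k) x y z = c * tri T x y z := by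
  simp only [tri, mul_sum, mul_assoc]

theorem tri_dot1 (T : A → B → C → ℝ) (x : A → ℝ) (y : B → ℝ) (z : C → ℝ) :
    tri T x y z = dot x (fun i => ∑ j, ∑ k, T i j k * y j * z k) := by
  simp only [tri, dot, mul_sum]
  exact sum_congr rfl (fun _ _ => sum_congr rfl (fun _ _ => sum_congr rfl (fun _ _ => by ring)))

theorem tri_dot2 (T : A → B → C → ℝ) (x : A → ℝ) (y : B → ℝ) (z : C → ℝ) :
    tri T x y z = dot y (fun j => ∑ i, ∑ k, T i j k * x i * z k) := by
  rw [← tri_swap12, tri_dot1]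

theorem tri_dot3 (T : A → B → C → ℝ) (x : A → ℝ) (y : B → ℝ) (z : C → ℝ) :
    tri T x y z = dot z (fun k => ∑ i, ∑ j, T i j k * x i * y j) := by
  rw [← tri_swap23, tri_dot2]

/-- A singular triple in weak form (not normalised). -/
def WS (T : A → B → C → ℝ) (σ : ℝ) (x : A → ℝ) (y : B → ℝ) (z : C → ℝ) : Prop :=
  (∀ a, tri T a y z = σ * dot a x) ∧ (∀ a, tri T x a z = σ * dot a y) ∧
    ∀ a, tri T x y a = σ * dot a z

theorem eq_of_max {g x : A → ℝ} {σ : ℝ} (hx : dot x x = 1) (h1 : dot x g = σ)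
    (h2 : dot g g ≤ σ * nr g) (a : A → ℝ) : dot a g = σ * dot a x := by
  have h3 : σ ≤ nr g := by
    have := dot_le x g
    rwa [nr_one hx, one_mul, h1] at this
  have h4 := nr_nonneg g
  have h5 := nr_sq g
  have h6 : dot g g ≤ σ ^ 2 := by
    rcases h4.eq_or_lt with h | h
    · rw [← h5, ← h]; simpa using sq_nonneg σ
    · have : nr g ≤ σ := le_of_mul_le_mul_right (by nlinarith) h
      rw [← h5, le_antisymm this h3]
  have h7 : dot (g - σ • x) (g - σ • x) = dot g g - 2 * σ * dot x g + σ ^ 2 * dot x x := by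
    simp only [dot, mul_sum, ← sum_sub_distrib, ← sum_add_distrib, Pi.sub_apply, Pi.smul_apply,
      smul_eq_mul]
    exact sum_congr rfl (fun _ _ => by ring)
  have h8 : g - σ • x = 0 :=
    eq_zero_of_dot (le_antisymm (by rw [h7, h1, hx]; nlinarith) (dot_nonneg _))
  rw [sub_eq_zero.1 h8, dot_smul]

theorem ws_of_max {T : A → B → C → ℝ} {σ : ℝ} {x : A → ℝ} {y : B → ℝ} {z : C → ℝ}
    (hb : ∀ x y z, tri T x y z ≤ σ * (nr x * nr y * nr z)) (hx : dot x x = 1) (hy : dot y y = 1)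
    (hz : dot z z = 1) (h : tri T x y z = σ) : WS T σ x y z := by
  refine ⟨fun a => ?_, fun a => ?_, fun a => ?_⟩
  · rw [tri_dot1]
    refine eq_of_max hx (by rw [← tri_dot1, h]) ?_ a
    rw [← tri_dot1]
    simpa [nr_one hy, nr_one hz] using hb _ y z
  · rw [tri_dot2]
    refine eq_of_max hy (by rw [← tri_dot2, h]) ?_ a
    rw [← tri_dot2]
    simpa [nr_one hx, nr_one hz] using hb x _ z
  · rw [tri_dot3]
    refine eq_of_max hz (by rw [← tri_dot3, h]) ?_ a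
    rw [← tri_dot3]
    simpa [nr_one hx, nr_one hy] using hb x y _

theorem unit_smul {x : A → ℝ} (h : nr x ≠ 0) : dot ((nr x)⁻¹ • x) ((nr x)⁻¹ • x) = 1 := by
  rw [dot_smul, smul_dot, ← nr_sq]; field_simp

theorem strict_of_not {T : A → B → C → ℝ} {σ : ℝ}
    (hn : ¬ ∃ x y z, dot x x = 1 ∧ dot y y = 1 ∧ dot z z = 1 ∧ tri T x y z = σ)
    {x : A → ℝ} {y : B → ℝ} {z : C → ℝ} (h : tri T x y z = σ * (nr x * nr y * nr z)) :
    tri T x y z = 0 := by
  by_contra hc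
  rw [h] at hc
  have h1 : nr x ≠ 0 := fun e => hc (by simp [e])
  have h2 : nr y ≠ 0 := fun e => hc (by simp [e])
  have h3 : nr z ≠ 0 := fun e => hc (by simp [e])
  refine hn ⟨_, _, _, unit_smul h1, unit_smul h2, unit_smul h3, ?_⟩
  rw [tri_smul, h]; field_simp

end basic

section push

variable {J I B C : Type} [Fintype J] [Fintype I] [Fintype B] [Fintype C] [DecidableEq I]

/-- Weighted sum over the fibres of a map. -/
def push (φ : J → I) (ω : J → ℝ) (x : J → ℝ) (i : I) : ℝ := ∑ p, if φ p = i then ω p * x p else 0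

/-- Weighted pull-back along a map. -/
def pull (φ : J → I) (ω : J → ℝ) (a : I → ℝ) (p : J) : ℝ := ω p * a (φ p)

theorem dot_push (φ : J → I) (ω : J → ℝ) (a : I → ℝ) (x : J → ℝ) :
    dot a (push φ ω x) = dot (pull φ ω a) x := by
  simp only [dot, push, pull, mul_sum, mul_ite, mul_zero]
  rw [sum_comm]
  refine sum_congr rfl (fun p _ => ?_)
  rw [sum_ite_eq, if_pos (mem_univ _)]; ring

theorem push_smul (φ : J → I) (ω : J → ℝ) (c : ℝ) (x : J → ℝ) :
    push φ ω (c • x) = c • push φ ω x := by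
  funext i
  simp only [push, Pi.smul_apply, smul_eq_mul, mul_sum]
  exact sum_congr rfl (fun p _ => by split_ifs <;> ring)

theorem tri_push1 (φ : J → I) (ω : J → ℝ) (T : I → B → C → ℝ) (x : J → ℝ) (y : B → ℝ)
    (z : C → ℝ) : tri T (push φ ω x) y z = tri (fun p j k => T (φ p) j k * ω p) x y z := by
  rw [tri_dot1, tri_dot1, dot_comm, dot_push, dot_comm]
  refine congrArg _ (funext fun p => ?_)
  simp only [pull, mul_sum]
  exact sum_congr rfl (fun _ _ => sum_congr rfl (fun _ _ => by ring))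

theorem tri_push (φ : J → I) (ω : J → ℝ) (T : I → I → I → ℝ) (x y z : J → ℝ) :
    tri T (push φ ω x) (push φ ω y) (push φ ω z) =
      tri (fun p q r => T (φ p) (φ q) (φ r) * ω p * ω q * ω r) x y z := by
  rw [tri_push1, ← tri_swap12, tri_push1, ← tri_swap23, ← tri_swap12, tri_push1, ← tri_swap12,
    ← tri_swap23, ← tri_swap12]

theorem push_le {φ : J → I} {ω : J → ℝ} {c : ℝ} (hc : 0 ≤ c)
    (h : ∀ a, push φ ω (pull φ ω a) = c • a) (x : J → ℝ) :
    dot (push φ ω x) (push φ ω x) ≤ c * dot x x := by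
  have h1 := dot_sq_le (pull φ ω (push φ ω x)) x
  rw [← dot_push, ← dot_push, h, dot_smul] at h1
  have h2 := dot_nonneg (push φ ω x)
  have h3 := dot_nonneg x
  rcases h2.eq_or_lt with e | e
  · rw [← e]; positivity
  · exact le_of_mul_le_mul_right (by nlinarith) e

end push

section sym

variable {J : Type} [Fintype J]

/-- The array placed on the parts `0, 1, 2` of a tripartite index set. -/
def cut (B : J → J → J → ℝ) (u v w : Fin 3 × J) : ℝ :=
  if ((u.1 : ℕ), (v.1 : ℕ), (w.1 : ℕ)) = (0, 1, 2) then B u.2 v.2 w.2 else 0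

/-- The tripartite symmetrisation. -/
def sym (B : J → J → J → ℝ) (u v w : Fin 3 × J) : ℝ :=
  cut B u v w + cut B u w v + cut B v u w + cut B v w u + cut B w u v + cut B w v u

/-- One part of a vector. -/
def part (x : Fin 3 × J → ℝ) (s : Fin 3) (p : J) : ℝ := x (s, p)

theorem tri_cut (B : J → J → J → ℝ) (x y z : Fin 3 × J → ℝ) :
    tri (cut B) x y z = tri B (part x 0) (part y 1) (part z 2) := by
  simp [tri, cut, part, Fintype.sum_prod_type, Fin.sum_univ_three]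

theorem tri_sym (B : J → J → J → ℝ) (x y z : Fin 3 × J → ℝ) :
    tri (sym B) x y z = tri B (part x 0) (part y 1) (part z 2) +
      tri B (part x 0) (part z 1) (part y 2) + tri B (part y 0) (part x 1) (part z 2) +
      tri B (part y 0) (part z 1) (part x 2) + tri B (part z 0) (part x 1) (part y 2) +
      tri B (part z 0) (part y 1) (part x 2) := by
  simp only [← tri_cut]
  unfold sym
  have e1 := tri_swap23 (cut B) x z y
  have e2 := tri_swap12 (cut B) y x z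
  have e3 : tri (fun u v w => cut B v w u) x y z = tri (cut B) y z x :=
    (tri_swap12 (fun v u w => cut B v w u) y x z).trans (tri_swap23 (cut B) y z x)
  have e4 : tri (fun u v w => cut B w u v) x y z = tri (cut B) z x y :=
    (tri_swap23 (fun u w v => cut B w u v) x z y).trans (tri_swap12 (cut B) z x y)
  have e5 : tri (fun u v w => cut B w v u) x y z = tri (cut B) z y x :=
    (tri_swap12 (fun v u w => cut B w v u) y x z).trans
      ((tri_swap23 (fun v w u => cut B w v u) y z x).trans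
        ((tri_swap12 (fun w v u => cut B w v u) z y x)))
  rw [tri_add, tri_add, tri_add, tri_add, tri_add, e1, e2, e3, e4, e5]

theorem dot_part (x y : Fin 3 × J → ℝ) : dot x y =
    dot (part x 0) (part y 0) + dot (part x 1) (part y 1) + dot (part x 2) (part y 2) := by
  simp [dot, part, Fintype.sum_prod_type, Fin.sum_univ_three]

end sym

theorem perm_sq (a0 a1 a2 b0 b1 b2 c0 c1 c2 : ℝ) :
    3 * (a0 * b1 * c2 + a0 * c1 * b2 + b0 * a1 * c2 + b0 * c1 * a2 + c0 * a1 * b2 +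
      c0 * b1 * a2) ^ 2 ≤ 4 * ((a0 ^ 2 + a1 ^ 2 + a2 ^ 2) * (b0 ^ 2 + b1 ^ 2 + b2 ^ 2) *
      (c0 ^ 2 + c1 ^ 2 + c2 ^ 2)) := by
  have h1 : ∀ u0 u1 u2 : ℝ, (c0 * u0 + c1 * u1 + c2 * u2) ^ 2 ≤
      (u0 ^ 2 + u1 ^ 2 + u2 ^ 2) * (c0 ^ 2 + c1 ^ 2 + c2 ^ 2) := fun u0 u1 u2 => by
    nlinarith [sq_nonneg (c0 * u1 - c1 * u0), sq_nonneg (c0 * u2 - c2 * u0),
      sq_nonneg (c1 * u2 - c2 * u1)]
  have h2 : 3 * ((a1 * b2 + a2 * b1) ^ 2 + (a0 * b2 + a2 * b0) ^ 2 + (a0 * b1 + a1 * b0) ^ 2) ≤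
      4 * ((a0 ^ 2 + a1 ^ 2 + a2 ^ 2) * (b0 ^ 2 + b1 ^ 2 + b2 ^ 2)) := by
    nlinarith [sq_nonneg (a0 * b1 - a1 * b0), sq_nonneg (a0 * b2 - a2 * b0),
      sq_nonneg (a1 * b2 - a2 * b1), sq_nonneg (a0 * b0 - a1 * b1),
      sq_nonneg (a0 * b0 - a2 * b2), sq_nonneg (a1 * b1 - a2 * b2)]
  have h3 := h1 (a1 * b2 + a2 * b1) (a0 * b2 + a2 * b0) (a0 * b1 + a1 * b0)
  have h4 := mul_le_mul_of_nonneg_right h2 (show 0 ≤ c0 ^ 2 + c1 ^ 2 + c2 ^ 2 by positivity)
  have e : a0 * b1 * c2 + a0 * c1 * b2 + b0 * a1 * c2 + b0 * c1 * a2 + c0 * a1 * b2 +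
      c0 * b1 * a2 = c0 * (a1 * b2 + a2 * b1) + c1 * (a0 * b2 + a2 * b0) +
        c2 * (a0 * b1 + a1 * b0) := by ring
  rw [e]
  linarith

theorem perm_par {a0 a1 a2 b0 b1 b2 c0 c1 c2 κ m : ℝ} (hκ : 0 < κ) (hm : κ ^ 2 < m)
    (ha : a0 ^ 2 + a1 ^ 2 + a2 ^ 2 = m)
    (p0 : a1 * b2 + a2 * b1 = κ * c0) (p1 : a0 * b2 + a2 * b0 = κ * c1)
    (p2 : a0 * b1 + a1 * b0 = κ * c2) (q0 : a1 * c2 + a2 * c1 = κ * b0)
    (q1 : a0 * c2 + a2 * c0 = κ * b1) (q2 : a0 * c1 + a1 * c0 = κ * b2) :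
    ∃ e : ℝ, e ^ 2 = 1 ∧ b0 = e * c0 ∧ b1 = e * c1 ∧ b2 = e * c2 := by
  have ch : ∀ v0 v1 v2 l : ℝ, a1 * v2 + a2 * v1 = l * v0 → a0 * v2 + a2 * v0 = l * v1 →
      a0 * v1 + a1 * v0 = l * v2 → l ^ 3 - m * l - 2 * (a0 * a1 * a2) ≠ 0 →
      v0 = 0 ∧ v1 = 0 ∧ v2 = 0 := by
    intro v0 v1 v2 l e0 e1 e2 hne
    refine ⟨(mul_eq_zero.1 ?_).resolve_left hne, (mul_eq_zero.1 ?_).resolve_left hne,
      (mul_eq_zero.1 ?_).resolve_left hne⟩
    · rw [← ha]
      linear_combination (a0 ^ 2 - l ^ 2) * e0 - (l * a2 + a0 * a1) * e1 -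
        (l * a1 + a0 * a2) * e2
    · rw [← ha]
      linear_combination (a1 ^ 2 - l ^ 2) * e1 - (l * a2 + a0 * a1) * e0 -
        (l * a0 + a1 * a2) * e2
    · rw [← ha]
      linear_combination (a2 ^ 2 - l ^ 2) * e2 - (l * a1 + a0 * a2) * e0 -
        (l * a0 + a1 * a2) * e1
  have hτ : 0 < κ * (m - κ ^ 2) := mul_pos hκ (by linarith)
  by_cases h : κ ^ 3 - m * κ - 2 * (a0 * a1 * a2) = 0
  · obtain ⟨h0, h1, h2⟩ := ch (b0 - c0) (b1 - c1) (b2 - c2) (-κ) (by linarith) (by linarith)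
      (by linarith) (by intro h'; nlinarith)
    exact ⟨1, by norm_num, by linarith, by linarith, by linarith⟩
  · obtain ⟨h0, h1, h2⟩ := ch (b0 + c0) (b1 + c1) (b2 + c2) κ (by linarith) (by linarith)
      (by linarith) h
    exact ⟨-1, by norm_num, by linarith, by linarith, by linarith⟩

/-- Positive singular values of the permanent of order three are at least one. -/
theorem perm_low {a0 a1 a2 b0 b1 b2 c0 c1 c2 κ m : ℝ} (hκ : 0 < κ)
    (ha : a0 ^ 2 + a1 ^ 2 + a2 ^ 2 = m) (hb : b0 ^ 2 + b1 ^ 2 + b2 ^ 2 = m)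
    (p0 : a1 * b2 + a2 * b1 = κ * c0) (p1 : a0 * b2 + a2 * b0 = κ * c1)
    (p2 : a0 * b1 + a1 * b0 = κ * c2) (q0 : a1 * c2 + a2 * c1 = κ * b0)
    (q1 : a0 * c2 + a2 * c0 = κ * b1) (q2 : a0 * c1 + a1 * c0 = κ * b2)
    (r0 : b1 * c2 + b2 * c1 = κ * a0) (r1 : b0 * c2 + b2 * c0 = κ * a1)
    (r2 : b0 * c1 + b1 * c0 = κ * a2) : m ≤ κ ^ 2 := by
  by_contra hm
  rw [not_le] at hm
  obtain ⟨e, he, rfl, rfl, rfl⟩ := perm_par hκ hm ha p0 p1 p2 q0 q1 q2
  obtain ⟨f, hf, rfl, rfl, rfl⟩ := perm_par (b0 := a0) (b1 := a1) (b2 := a2) hκ hm hb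
    (by linarith) (by linarith) (by linarith) r0 r1 r2
  have hc : c0 ^ 2 + c1 ^ 2 + c2 ^ 2 = m := by
    rw [← ha]; linear_combination -(c0 ^ 2 + c1 ^ 2 + c2 ^ 2) * hf
  have s0 : 4 * (c1 ^ 2 * c2 ^ 2) = κ ^ 2 * c0 ^ 2 := by
    have : (2 * e * c1 * c2) ^ 2 = (κ * (f * c0)) ^ 2 := by rw [← r0]; ring
    linear_combination this - 4 * c1 ^ 2 * c2 ^ 2 * he + κ ^ 2 * c0 ^ 2 * hf
  have s1 : 4 * (c0 ^ 2 * c2 ^ 2) = κ ^ 2 * c1 ^ 2 := by
    have : (2 * e * c0 * c2) ^ 2 = (κ * (f * c1)) ^ 2 := by rw [← r1]; ring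
    linear_combination this - 4 * c0 ^ 2 * c2 ^ 2 * he + κ ^ 2 * c1 ^ 2 * hf
  have s2 : 4 * (c0 ^ 2 * c1 ^ 2) = κ ^ 2 * c2 ^ 2 := by
    have : (2 * e * c0 * c1) ^ 2 = (κ * (f * c2)) ^ 2 := by rw [← r2]; ring
    linear_combination this - 4 * c0 ^ 2 * c1 ^ 2 * he + κ ^ 2 * c2 ^ 2 * hf
  have hk : 0 < κ ^ 2 := by positivity
  have n0 := sq_nonneg c0
  have n1 := sq_nonneg c1
  have n2 := sq_nonneg c2
  generalize c0 ^ 2 = x at *
  generalize c1 ^ 2 = y at *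
  generalize c2 ^ 2 = z at *
  generalize κ ^ 2 = k at *
  have small : ∀ x y z : ℝ, 0 ≤ x → 4 * (x * z) = k * y → 4 * (x * y) = k * z →
      4 * (y * z) = k * x → 4 * x ≤ k := by
    intro x y z hx e1 e2 e3
    by_contra hc
    have h1 : (16 * x ^ 2 - k ^ 2) * y = 0 := by linear_combination 4 * x * e2 + k * e1
    have h2 : y = 0 := (mul_eq_zero.1 h1).resolve_left (by nlinarith)
    rw [h2] at e3
    nlinarith
  have t0 := small x y z n0 s1 s2 s0
  have t1 := small y x z n1 s0 (by linarith) (by linarith)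
  have t2 := small z x y n2 (by linarith) (by linarith) (by linarith)
  linarith

end Pool.Agent.Lib.MP_acf5a6_lc.Hy
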